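import Mathlib

set_option autoImplicit false

/-! One-dimensional Brunn-Minkowski and Prékopa-Leindler inequalities for several sets
(functions). -/

open MeasureTheory Set Filter Topology
open scoped ENNReal Pointwise

namespace Pool.Agent.Q156.SX

lemma bm_two {A B : Set ℝ} (hA : IsCompact A) (hB : IsCompact B) (hAn : A.Nonempty)
    (hBn : B.Nonempty) : volume A + volume B ≤ volume (A + B) := by
  set a := sSup A with ha
  set b := sInf B with hb
  have haA : a ∈ A := hA.sSup_mem hAn
  have hbB : b ∈ B := hB.sInf_mem hBn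
  set S := (fun x => x + b) '' A with hS
  set T := (fun x => a + x) '' B with hT
  have hSsub : S ⊆ A + B := by
    rintro _ ⟨x, hx, rfl⟩
    exact Set.add_mem_add hx hbB
  have hTsub : T ⊆ A + B := by
    rintro _ ⟨x, hx, rfl⟩
    exact Set.add_mem_add haA hx
  have hSv : volume S = volume A := by
    rw [hS, Set.image_add_right, measure_preimage_add_right]
  have hTv : volume T = volume B := by
    rw [hT, Set.image_add_left, measure_preimage_add]
  have hTm : MeasurableSet T := (hB.image (by fun_prop)).measurableSet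
  have hdis : AEDisjoint volume S T := by
    refine measure_mono_null (t := {a + b}) ?_ (by simp)
    rintro _ ⟨⟨x, hx, rfl⟩, ⟨y, hy, hxy⟩⟩
    have h1 : x ≤ a := le_csSup hA.bddAbove hx
    have h2 : b ≤ y := csInf_le hB.bddBelow hy
    have h3 : a + y = x + b := hxy
    rw [mem_singleton_iff]
    change x + b = a + b
    linarith
  calc volume A + volume B = volume S + volume T := by rw [hSv, hTv]
    _ = volume (S ∪ T) := (measure_union₀ hTm.nullMeasurableSet hdis).symm
    _ ≤ volume (A + B) := measure_mono (union_subset hSsub hTsub)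

variable {β : Type*}

lemma bm_multi (J : Finset β) (c : β → ℝ) (hc : ∀ j ∈ J, 0 < c j) (A : β → Set ℝ)
    (hA : ∀ j ∈ J, IsCompact (A j)) (hne : ∀ j ∈ J, (A j).Nonempty) :
    ∃ S : Set ℝ, IsCompact S ∧ S.Nonempty ∧
      (∀ x ∈ S, ∃ t : β → ℝ, (∀ j ∈ J, t j ∈ A j) ∧ x = ∑ j ∈ J, c j * t j) ∧
      ∑ j ∈ J, ENNReal.ofReal (c j) * volume (A j) ≤ volume S := by
  classical
  induction J using Finset.induction_on with
  | empty =>
    exact ⟨{0}, isCompact_singleton, singleton_nonempty 0, fun x hx => ⟨0, by simp, by simpa using hx⟩,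
      by simp⟩
  | insert j J hj ih =>
    obtain ⟨S, hS, hSn, hSx, hSv⟩ := ih (fun i hi => hc i (Finset.mem_insert_of_mem hi))
      (fun i hi => hA i (Finset.mem_insert_of_mem hi))
      (fun i hi => hne i (Finset.mem_insert_of_mem hi))
    have hcj := hc j (Finset.mem_insert_self j J)
    have hAj := hA j (Finset.mem_insert_self j J)
    have hnj := hne j (Finset.mem_insert_self j J)
    have hB : IsCompact (c j • A j) := hAj.smul (c j)
    refine ⟨c j • A j + S, hB.add hS, (hnj.smul_set).add hSn, ?_, ?_⟩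
    · intro x hx
      obtain ⟨y, hy, z, hz, rfl⟩ := Set.mem_add.1 hx
      obtain ⟨u, hu, rfl⟩ := Set.mem_smul_set.1 hy
      obtain ⟨t, ht, rfl⟩ := hSx z hz
      refine ⟨Function.update t j u, ?_, ?_⟩
      · intro i hi
        rcases Finset.mem_insert.1 hi with rfl | hi'
        · simpa using hu
        · have : i ≠ j := fun h => hj (h ▸ hi')
          rw [Function.update_of_ne this]
          exact ht i hi'
      · rw [Finset.sum_insert hj, Function.update_self, smul_eq_mul]
        congr 1
        apply Finset.sum_congr rfl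
        intro i hi
        have : i ≠ j := fun h => hj (h ▸ hi)
        rw [Function.update_of_ne this]
    · rw [Finset.sum_insert hj]
      refine le_trans ?_ (bm_two hB hS hnj.smul_set hSn)
      refine add_le_add (le_of_eq ?_) hSv
      rw [Measure.addHaar_smul, Module.finrank_self, pow_one, abs_of_pos hcj]

/-- Brunn-Minkowski for measurable sets -/
lemma bm_meas [Fintype β] (c : β → ℝ) (hc : ∀ j, 0 < c j) (A : β → Set ℝ)
    (hA : ∀ j, MeasurableSet (A j)) (hne : ∀ j, (A j).Nonempty)
    {D : Set ℝ} (hD : ∀ t : β → ℝ, (∀ j, t j ∈ A j) → ∑ j, c j * t j ∈ D) :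
    ∑ j, ENNReal.ofReal (c j) * volume (A j) ≤ volume D := by
  by_contra hcon
  push Not at hcon
  -- choose compact subsets
  have hex : ∃ r : β → ℝ≥0∞, (∀ j, r j < volume (A j) ∨ r j = 0) ∧
      volume D < ∑ j, ENNReal.ofReal (c j) * r j := by
    by_contra hno
    push Not at hno
    have hDt : volume D ≠ ⊤ := (lt_of_lt_of_le hcon le_top).ne
    -- approximate
    have hfin : ∀ j, volume (A j) ≠ ⊤ := by
      intro j hj
      classical
      obtain ⟨M, hM⟩ : ∃ M : ℝ≥0∞, M ≠ ⊤ ∧ volume D < ENNReal.ofReal (c j) * M := by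
        refine ⟨ENNReal.ofReal ((volume D).toReal / c j + 1), ENNReal.ofReal_ne_top, ?_⟩
        rw [← ENNReal.ofReal_mul (hc j).le]
        have : c j * ((volume D).toReal / c j + 1) = (volume D).toReal + c j := by
          have := (hc j).ne'
          field_simp
        rw [this, ENNReal.lt_ofReal_iff_toReal_lt hDt]
        linarith [hc j]
      have h1 := hno (Function.update 0 j M) (fun i => by
        by_cases hi : i = j
        · subst hi
          left
          rw [Function.update_self, hj]
          exact lt_top_iff_ne_top.2 hM.1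
        · right
          rw [Function.update_of_ne hi]; rfl)
      have h2 : ENNReal.ofReal (c j) * M ≤
          ∑ i, ENNReal.ofReal (c i) * (Function.update 0 j M : β → ℝ≥0∞) i := by
        refine le_trans ?_ (Finset.single_le_sum (f := fun i => ENNReal.ofReal (c i) *
          (Function.update 0 j M : β → ℝ≥0∞) i) (fun _ _ => zero_le) (Finset.mem_univ j))
        simp
      exact absurd (hM.2.trans_le (h2.trans h1)) (lt_irrefl _)
    have hlim : Tendsto (fun k : ℕ => ∑ j, ENNReal.ofReal (c j) *
        (volume (A j) - 1 / ((k : ℝ≥0∞) + 1))) atTop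
        (𝓝 (∑ j, ENNReal.ofReal (c j) * (volume (A j) - 0))) := by
      apply tendsto_finsetSum
      intro j _
      apply ENNReal.Tendsto.const_mul _ (Or.inr ENNReal.ofReal_ne_top)
      apply ENNReal.Tendsto.sub tendsto_const_nhds _ (Or.inl (hfin j))
      have := ENNReal.tendsto_inv_nat_nhds_zero.comp (tendsto_add_atTop_nat 1)
      refine this.congr fun k => ?_
      simp
    simp only [tsub_zero] at hlim
    have hle := le_of_tendsto' hlim (fun k => hno (fun j => volume (A j) - 1 / ((k : ℝ≥0∞) + 1))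
      (fun j => by
        by_cases h0 : volume (A j) = 0
        · right; simp [h0]
        · left
          apply ENNReal.sub_lt_self (hfin j) h0
          simp))
    exact absurd hcon (not_lt.2 hle)
  obtain ⟨r, hr, hrD⟩ := hex
  have hC : ∀ j, ∃ C : Set ℝ, C ⊆ A j ∧ IsCompact C ∧ C.Nonempty ∧ r j ≤ volume C := by
    intro j
    rcases hr j with h | h
    · obtain ⟨C, hCs, hCc, hCv⟩ := (hA j).exists_lt_isCompact h
      refine ⟨C, hCs, hCc, ?_, hCv.le⟩
      by_contra hemp
      rw [not_nonempty_iff_eq_empty] at hemp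
      rw [hemp, measure_empty] at hCv
      exact absurd hCv (not_lt.2 zero_le)
    · obtain ⟨x, hx⟩ := hne j
      exact ⟨{x}, singleton_subset_iff.2 hx, isCompact_singleton, singleton_nonempty x,
        by rw [h]; exact zero_le⟩
  choose C hCs hCc hCn hCv using hC
  obtain ⟨S, -, -, hSx, hSv⟩ := bm_multi Finset.univ c (fun j _ => hc j) C (fun j _ => hCc j)
    (fun j _ => hCn j)
  have hSD : S ⊆ D := by
    intro x hx
    obtain ⟨t, ht, rfl⟩ := hSx x hx
    exact hD t fun j => hCs j (ht j (Finset.mem_univ j))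
  have : ∑ j, ENNReal.ofReal (c j) * r j ≤ volume D :=
    (Finset.sum_le_sum fun j _ => mul_le_mul_right (hCv j) _).trans
      (hSv.trans (measure_mono hSD))
  exact absurd hrD (not_lt.2 this)

/-- layer cake -/
lemma layer {f : ℝ → ℝ≥0∞} (hf : Measurable f) {a : ℝ≥0∞} (ha : a ≠ 0) (ha' : a ≠ ⊤)
    (hfa : ∀ t, f t ≤ a) :
    ∫⁻ t, f t = a * ∫⁻ u in Ioo (0 : ℝ) 1, volume {t | ENNReal.ofReal u * a < f t} ∧
    ∫⁻ t, f t = a * ∫⁻ u in Ioo (0 : ℝ) 1, volume {t | ENNReal.ofReal u * a ≤ f t} := by
  set F : ℝ → ℝ := fun t => (f t / a).toReal with hF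
  have hdiv : ∀ t, f t / a ≤ 1 := fun t => ENNReal.div_le_of_le_mul (by rw [one_mul]; exact hfa t)
  have hne : ∀ t, f t / a ≠ ⊤ := fun t => ((hdiv t).trans_lt ENNReal.one_lt_top).ne
  have hF1 : ∀ t, F t ≤ 1 := fun t => by
    have := ENNReal.toReal_mono ENNReal.one_ne_top (hdiv t)
    rw [ENNReal.toReal_one] at this
    exact this
  have hFm : Measurable F := (hf.div_const a).ennreal_toReal
  have h0 : 0 ≤ᵐ[volume] F := Eventually.of_forall fun t => ENNReal.toReal_nonneg
  have e1 : ∫⁻ t, f t = a * ∫⁻ t, ENNReal.ofReal (F t) := by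
    rw [← lintegral_const_mul' _ _ ha']
    apply lintegral_congr
    intro t
    rw [hF, ENNReal.ofReal_toReal (hne t), ENNReal.mul_div_cancel ha ha']
  have key : ∀ u ∈ Ioo (0 : ℝ) 1, ∀ t, (u < F t ↔ ENNReal.ofReal u * a < f t) ∧
      (u ≤ F t ↔ ENNReal.ofReal u * a ≤ f t) := by
    intro u hu t
    constructor
    · rw [hF, ← ENNReal.ofReal_lt_iff_lt_toReal hu.1.le (hne t),
        ENNReal.lt_div_iff_mul_lt (Or.inl ha) (Or.inl ha')]
    · rw [hF, ← ENNReal.ofReal_le_iff_le_toReal (hne t),
        ENNReal.le_div_iff_mul_le (Or.inl ha) (Or.inl ha')]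
  constructor
  · rw [e1, lintegral_eq_lintegral_meas_lt volume h0 hFm.aemeasurable]
    congr 1
    rw [← Ioo_union_Ici_eq_Ioi (show (0 : ℝ) < 1 by norm_num), lintegral_union measurableSet_Ici]
    · have e2 : ∫⁻ u in Ici (1 : ℝ), volume {t | u < F t} = 0 := by
        rw [setLIntegral_congr_fun (g := fun _ => 0) measurableSet_Ici]
        · simp
        · intro u hu
          have : {t | u < F t} = ∅ := by
            ext t
            simp only [mem_ofPred_eq, mem_empty_iff_false, iff_false, not_lt]
            exact (hF1 t).trans hu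
          simp [this]
      rw [e2, add_zero]
      refine setLIntegral_congr_fun measurableSet_Ioo fun u hu => ?_
      have : {t | u < F t} = {t | ENNReal.ofReal u * a < f t} := by
        ext t; exact (key u hu t).1
      simp only [this]
    · rw [Set.disjoint_left]
      intro u hu hu'
      exact absurd hu.2 (not_lt.2 hu')
  · rw [e1, lintegral_eq_lintegral_meas_le volume h0 hFm.aemeasurable]
    congr 1
    rw [← Ioo_union_Ici_eq_Ioi (show (0 : ℝ) < 1 by norm_num), lintegral_union measurableSet_Ici]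
    · have e2 : ∫⁻ u in Ici (1 : ℝ), volume {t | u ≤ F t} = 0 := by
        rw [setLIntegral_congr (Ioi_ae_eq_Ici (a := (1 : ℝ)) (μ := volume)).symm,
          setLIntegral_congr_fun (g := fun _ => 0) measurableSet_Ioi]
        · simp
        · intro u hu
          have : {t | u ≤ F t} = ∅ := by
            ext t
            simp only [mem_ofPred_eq, mem_empty_iff_false, iff_false, not_le]
            exact (hF1 t).trans_lt hu
          simp [this]
      rw [e2, add_zero]
      refine setLIntegral_congr_fun measurableSet_Ioo fun u hu => ?_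
      have : {t | u ≤ F t} = {t | ENNReal.ofReal u * a ≤ f t} := by
        ext t; exact (key u hu t).2
      simp only [this]
    · rw [Set.disjoint_left]
      intro u hu hu'
      exact absurd hu.2 (not_lt.2 hu')

/-- weighted arithmetic-geometric mean inequality -/
lemma amgm [Fintype β] (c : β → ℝ) (hc : ∀ j, 0 < c j) (hsum : ∑ j, c j = 1) (z : β → ℝ≥0∞) :
    ∏ j, z j ^ c j ≤ ∑ j, ENNReal.ofReal (c j) * z j := by
  by_cases h : ∀ j, z j ≠ ⊤
  · lift z to β → NNReal using h
    have h1 := NNReal.geom_mean_le_arith_mean_weighted (s := Finset.univ)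
      (fun j => (c j).toNNReal) z (by
        rw [← NNReal.coe_inj]
        push_cast
        rw [← hsum]
        exact Finset.sum_congr rfl fun j _ => Real.coe_toNNReal _ (hc j).le)
    have h2 : ((∏ j, z j ^ ((c j).toNNReal : ℝ) : NNReal) : ℝ≥0∞) ≤
        ((∑ j, (c j).toNNReal * z j : NNReal) : ℝ≥0∞) := by exact_mod_cast h1
    push_cast at h2
    refine le_trans (le_of_eq ?_) h2
    apply Finset.prod_congr rfl
    intro j _
    rw [Real.coe_toNNReal _ (hc j).le, ENNReal.coe_rpow_of_nonneg _ (hc j).le]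
  · push Not at h
    obtain ⟨j, hj⟩ := h
    have : ∑ j, ENNReal.ofReal (c j) * z j = ⊤ := by
      rw [ENNReal.sum_eq_top]
      refine ⟨j, Finset.mem_univ j, ?_⟩
      rw [hj]
      apply ENNReal.mul_top
      exact (ENNReal.ofReal_pos.2 (hc j)).ne'
    rw [this]
    exact le_top

/-- one-dimensional Prékopa-Leindler inequality for several bounded functions -/
lemma pl_one [Fintype β] [Nonempty β] (c : β → ℝ) (hc : ∀ j, 0 < c j) (hsum : ∑ j, c j = 1)
    (f : β → ℝ → ℝ≥0∞) (hf : ∀ j, Measurable (f j)) {B : ℝ≥0∞} (hB : B ≠ ⊤)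
    (hfB : ∀ j t, f j t ≤ B) (h : ℝ → ℝ≥0∞) (hh : Measurable h) {C : ℝ≥0∞} (hC : C ≠ ⊤)
    (H : ∀ t : β → ℝ, C * ∏ j, f j (t j) ^ c j ≤ h (∑ j, c j * t j)) :
    C * ∏ j, (∫⁻ t, f j t) ^ c j ≤ ∫⁻ t, h t := by
  set a : β → ℝ≥0∞ := fun j => ⨆ t, f j t with ha
  have haT : ∀ j, a j ≠ ⊤ := fun j => ((iSup_le (hfB j)).trans_lt (lt_top_iff_ne_top.2 hB)).ne
  have hfa : ∀ j t, f j t ≤ a j := fun j t => le_iSup (f j) t
  by_cases hz : ∃ j, a j = 0
  · obtain ⟨j, hj⟩ := hz
    have : ∫⁻ t, f j t = 0 := by
      have : ∀ t, f j t = 0 := fun t => le_antisymm ((hfa j t).trans hj.le) zero_le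
      simp [this]
    have h2 : ∏ j, (∫⁻ t, f j t) ^ c j = 0 := by
      apply Finset.prod_eq_zero (Finset.mem_univ j)
      rw [this, ENNReal.zero_rpow_of_pos (hc j)]
    rw [h2, mul_zero]
    exact zero_le
  push Not at hz
  rcases eq_or_ne C 0 with rfl | hC0
  · rw [zero_mul]; exact zero_le
  set P : ℝ≥0∞ := C * ∏ j, a j ^ c j with hP
  have hprod0 : ∏ j, a j ^ c j ≠ 0 := by
    rw [Finset.prod_ne_zero_iff]
    intro j _
    exact (ENNReal.rpow_pos (pos_iff_ne_zero.2 (hz j)) (haT j)).ne'
  have hprodT : ∏ j, a j ^ c j ≠ ⊤ := by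
    apply ENNReal.prod_ne_top
    intro j _
    exact ENNReal.rpow_ne_top_of_nonneg (hc j).le (haT j)
  have hP0 : P ≠ 0 := mul_ne_zero hC0 hprod0
  have hPT : P ≠ ⊤ := ENNReal.mul_ne_top hC hprodT
  -- the truncated h
  have hmin : Measurable fun t => min (h t) P := hh.min measurable_const
  have L := (layer hmin hP0 hPT (fun t => min_le_right _ _)).2
  have step : ∀ u ∈ Ioo (0 : ℝ) 1, ∑ j, ENNReal.ofReal (c j) *
      volume {t | ENNReal.ofReal u * a j < f j t} ≤
      volume {t | ENNReal.ofReal u * P ≤ min (h t) P} := by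
    intro u hu
    have hu1 : ENNReal.ofReal u < 1 := by
      rw [← ENNReal.ofReal_one]
      exact (ENNReal.ofReal_lt_ofReal_iff one_pos).2 hu.2
    apply bm_meas c hc (fun j => {t | ENNReal.ofReal u * a j < f j t})
    · intro j
      exact measurableSet_lt measurable_const (hf j)
    · intro j
      have h1 : ENNReal.ofReal u * a j < a j := by
        calc ENNReal.ofReal u * a j < 1 * a j :=
              (ENNReal.mul_lt_mul_iff_left (hz j) (haT j)).2 hu1
          _ = a j := one_mul _
      obtain ⟨t, ht⟩ := lt_iSup_iff.1 (h1 : ENNReal.ofReal u * a j < ⨆ t, f j t)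
      exact ⟨t, ht⟩
    · intro t ht
      rw [mem_ofPred_eq, le_min_iff]
      constructor
      · refine le_trans ?_ (H t)
        have e : ENNReal.ofReal u * P = C * ∏ j, (ENNReal.ofReal u * a j) ^ c j := by
          have : ∏ j, (ENNReal.ofReal u * a j) ^ c j = ENNReal.ofReal u * ∏ j, a j ^ c j := by
            calc ∏ j, (ENNReal.ofReal u * a j) ^ c j
                = ∏ j, (ENNReal.ofReal u ^ c j * a j ^ c j) :=
                  Finset.prod_congr rfl fun j _ => ENNReal.mul_rpow_of_nonneg _ _ (hc j).le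
              _ = (∏ j, ENNReal.ofReal u ^ c j) * ∏ j, a j ^ c j := Finset.prod_mul_distrib
              _ = ENNReal.ofReal u * ∏ j, a j ^ c j := by
                  congr 1
                  have e1 : ∀ j, ENNReal.ofReal u ^ c j = ENNReal.ofReal (u ^ c j) := fun j =>
                    ENNReal.ofReal_rpow_of_pos hu.1
                  simp_rw [e1]
                  rw [← ENNReal.ofReal_prod_of_nonneg
                    (fun j _ => Real.rpow_nonneg hu.1.le _), ← Real.rpow_sum_of_pos hu.1, hsum,
                    Real.rpow_one]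
          rw [this, hP]
          ring
        rw [e]
        refine mul_le_mul_right (Finset.prod_le_prod' fun j _ => ?_) _
        exact ENNReal.rpow_le_rpow (ht j).le (hc j).le
      · calc ENNReal.ofReal u * P ≤ 1 * P := mul_le_mul_left hu1.le _
          _ = P := one_mul P
  have hI : ∀ j, ∫⁻ t, f j t = a j * ∫⁻ u in Ioo (0 : ℝ) 1,
      volume {t | ENNReal.ofReal u * a j < f j t} := fun j =>
    (layer (hf j) (hz j) (haT j) (hfa j)).1
  have hmeas : ∀ j, Measurable fun u : ℝ => volume {t | ENNReal.ofReal u * a j < f j t} := by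
    intro j
    have hs : MeasurableSet {z : ℝ × ℝ | ENNReal.ofReal z.1 * a j < f j z.2} := by
      apply measurableSet_lt
      · fun_prop
      · exact (hf j).comp measurable_snd
    exact measurable_measure_prodMk_left hs
  calc C * ∏ j, (∫⁻ t, f j t) ^ c j
      = P * ∏ j, (∫⁻ u in Ioo (0 : ℝ) 1, volume {t | ENNReal.ofReal u * a j < f j t}) ^ c j := by
        rw [hP, mul_assoc, ← Finset.prod_mul_distrib]
        congr 1
        apply Finset.prod_congr rfl
        intro j _
        rw [hI j, ENNReal.mul_rpow_of_nonneg _ _ (hc j).le]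
    _ ≤ P * ∑ j, ENNReal.ofReal (c j) *
          ∫⁻ u in Ioo (0 : ℝ) 1, volume {t | ENNReal.ofReal u * a j < f j t} :=
        mul_le_mul_right (amgm c hc hsum _) _
    _ = P * ∫⁻ u in Ioo (0 : ℝ) 1, ∑ j, ENNReal.ofReal (c j) *
          volume {t | ENNReal.ofReal u * a j < f j t} := by
        congr 1
        rw [lintegral_finsetSum _ (fun j _ => (hmeas j).const_mul _)]
        apply Finset.sum_congr rfl
        intro j _
        rw [lintegral_const_mul' _ _ ENNReal.ofReal_ne_top]
    _ ≤ P * ∫⁻ u in Ioo (0 : ℝ) 1, volume {t | ENNReal.ofReal u * P ≤ min (h t) P} :=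
        mul_le_mul_right (setLIntegral_mono' measurableSet_Ioo step) _
    _ = ∫⁻ t, min (h t) P := L.symm
    _ ≤ ∫⁻ t, h t := lintegral_mono fun t => min_le_left _ _

end Pool.Agent.Q156.SX
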