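import Pool.Agent.Q156.SX.A

set_option autoImplicit false

/-! A reverse Brascamp-Lieb inequality for coordinate subspaces. -/

open MeasureTheory Set Filter Topology
open scoped ENNReal Pointwise Classical

namespace Pool.Agent.Q156.SX

/-- Lebesgue measure or the unit mass at `0` -/
noncomputable def mi (b : Prop) : Measure ℝ := if b then volume else Measure.dirac 0

instance (b : Prop) : SigmaFinite (mi b) := by
  unfold mi
  split_ifs
  · infer_instance
  · infer_instance

/-- the Lebesgue measure of the coordinate subspace `{x : x i = 0 for i with ¬ T i}` -/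
noncomputable def mu {ι : Type*} [Fintype ι] (T : ι → Prop) : Measure (ι → ℝ) :=
  Measure.pi fun i => mi (T i)

lemma lintegral_mi_true {b : Prop} (hb : b) (f : ℝ → ℝ≥0∞) : ∫⁻ t, f t ∂(mi b) = ∫⁻ t, f t := by
  unfold mi; rw [if_pos hb]

lemma lintegral_mi_false {b : Prop} (hb : ¬ b) {f : ℝ → ℝ≥0∞} (hf : Measurable f) :
    ∫⁻ t, f t ∂(mi b) = f 0 := by
  unfold mi; rw [if_neg hb, lintegral_dirac' _ hf]

lemma measurable_cons {d : ℕ} : Measurable fun p : ℝ × (Fin d → ℝ) =>
    (Fin.cons p.1 p.2 : Fin (d + 1) → ℝ) := by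
  rw [measurable_pi_iff]
  intro i
  refine Fin.cases ?_ (fun j => ?_) i
  · simpa using measurable_fst
  · simp only [Fin.cons_succ]
    exact (measurable_pi_apply j).comp measurable_snd

lemma lintegral_mu_succ {d : ℕ} (T : Fin (d + 1) → Prop) {f : (Fin (d + 1) → ℝ) → ℝ≥0∞}
    (hf : Measurable f) :
    ∫⁻ x, f x ∂(mu T) = ∫⁻ x', ∫⁻ t, f (Fin.cons t x') ∂(mi (T 0)) ∂(mu fun i : Fin d => T i.succ) := by
  have h := (measurePreserving_piFinSuccAbove (fun i => mi (T i)) 0).symm
  have h1 : ∫⁻ x, f x ∂(mu T) = ∫⁻ p, f ((MeasurableEquiv.piFinSuccAbove (fun _ => ℝ) 0).symm p)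
      ∂((mi (T 0)).prod (Measure.pi fun j => mi (T (Fin.succAbove 0 j)))) :=
    (h.lintegral_comp hf).symm
  have hg : Measurable fun p : ℝ × (Fin d → ℝ) =>
      f ((MeasurableEquiv.piFinSuccAbove (fun _ => ℝ) 0).symm p) :=
    hf.comp (MeasurableEquiv.measurable _)
  rw [h1, lintegral_prod_symm _ hg.aemeasurable]
  have e : ∀ (x : ℝ) (y : Fin d → ℝ),
      (MeasurableEquiv.piFinSuccAbove (fun _ => ℝ) 0).symm (x, y) =
        (Fin.cons x y : Fin (d + 1) → ℝ) := by
    intro x y
    funext i
    refine Fin.cases ?_ (fun j => ?_) i <;> simp [MeasurableEquiv.piFinSuccAbove]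
  have e2 : (fun j : Fin d => mi (T (Fin.succAbove 0 j))) = fun j => mi (T j.succ) := by
    funext j; rw [Fin.zero_succAbove]
  simp_rw [e]
  rw [e2]
  rfl

theorem rbl {β : Type*} [Fintype β] (c : β → ℝ) (hc : ∀ j, 0 < c j) (R : ℝ) : ∀ (d : ℕ)
    (T : β → Fin d → Prop) (_ : ∀ i, ∑ j, (if T j i then c j else 0) = 1)
    (f : β → (Fin d → ℝ) → ℝ≥0∞) (_ : ∀ j, Measurable (f j)) (B : ℝ≥0∞) (_ : B ≠ ⊤)
    (_ : ∀ j x, f j x ≤ B) (_ : ∀ j x, f j x ≠ 0 → ∀ i, |x i| ≤ R)
    (h : (Fin d → ℝ) → ℝ≥0∞) (_ : Measurable h)
    (_ : ∀ x : β → Fin d → ℝ, (∀ j i, ¬ T j i → x j i = 0) →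
      ∏ j, f j (x j) ^ c j ≤ h (fun i => ∑ j, c j * x j i)),
    ∏ j, (∫⁻ x, f j x ∂(mu (T j))) ^ c j ≤ ∫⁻ x, h x := by
  intro d
  induction d with
  | zero =>
    intro T hT f hf B hB hfB hfR h hh H
    have e1 : ∀ j, ∫⁻ x, f j x ∂(mu (T j)) = f j 0 := by
      intro j
      unfold mu
      rw [Measure.pi_of_empty _ (0 : Fin 0 → ℝ), lintegral_dirac' _ (hf j)]
    have e2 : ∫⁻ x, h x = h 0 := by
      rw [volume_pi, Measure.pi_of_empty _ (0 : Fin 0 → ℝ), lintegral_dirac' _ hh]
    simp_rw [e1]
    rw [e2]
    have := H (fun _ => 0) (fun j i => i.elim0)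
    refine this.trans (le_of_eq ?_)
    congr 1
    funext i
    exact i.elim0
  | succ d ih =>
    intro T hT f hf B hB hfB hfR h hh H
    set f' : β → (Fin d → ℝ) → ℝ≥0∞ := fun j x' => ∫⁻ t, f j (Fin.cons t x') ∂(mi (T j 0)) with hf'
    set h' : (Fin d → ℝ) → ℝ≥0∞ := fun x' => ∫⁻ t, h (Fin.cons t x') with hh'
    have hfm : ∀ j, Measurable fun p : ℝ × (Fin d → ℝ) => f j (Fin.cons p.1 p.2) := fun j =>
      (hf j).comp measurable_cons
    have hfx : ∀ j x', Measurable fun t : ℝ => f j (Fin.cons t x') := fun j x' =>
      (hfm j).comp (measurable_id.prodMk measurable_const)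
    have hm1 : ∀ j, Measurable (f' j) := fun j => (hfm j).lintegral_prod_left'
    have hm2 : Measurable h' := (hh.comp measurable_cons).lintegral_prod_left'
    have hB' : B * (ENNReal.ofReal (2 * R) + 1) ≠ ⊤ :=
      ENNReal.mul_ne_top hB (ENNReal.add_ne_top.2 ⟨ENNReal.ofReal_ne_top, ENNReal.one_ne_top⟩)
    have hb' : ∀ j x', f' j x' ≤ B * (ENNReal.ofReal (2 * R) + 1) := by
      intro j x'
      by_cases hj : T j 0
      · simp only [hf']
        rw [lintegral_mi_true hj]
        have h1 : ∀ t, f j (Fin.cons t x') ≤ (Icc (-R) R).indicator (fun _ => B) t := by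
          intro t
          by_cases h0 : f j (Fin.cons t x') = 0
          · rw [h0]; exact zero_le
          · have h2 := hfR j _ h0 0
            rw [Fin.cons_zero] at h2
            rw [indicator_of_mem (show t ∈ Icc (-R) R from abs_le.1 h2)]
            exact hfB j _
        refine (lintegral_mono h1).trans ?_
        rw [lintegral_indicator measurableSet_Icc, setLIntegral_const, Real.volume_Icc]
        refine mul_le_mul_right ?_ _
        have : R - -R = 2 * R := by ring
        rw [this]
        exact le_self_add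
      · simp only [hf']
        rw [lintegral_mi_false hj (hfx j x')]
        calc f j (Fin.cons 0 x') ≤ B * 1 := by rw [mul_one]; exact hfB j _
          _ ≤ _ := mul_le_mul_right le_add_self _
    have hR' : ∀ j x', f' j x' ≠ 0 → ∀ i, |x' i| ≤ R := by
      intro j x' h0 i
      by_contra hcon
      apply h0
      have : ∀ t, f j (Fin.cons t x') = 0 := by
        intro t
        by_contra h1
        have h2 := hfR j _ h1 i.succ
        rw [Fin.cons_succ] at h2
        exact hcon h2
      simp only [hf', this, lintegral_zero]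
    have hfin : ∏ j, (∫⁻ x, f' j x ∂(mu fun i => T j i.succ)) ^ c j ≤ ∫⁻ x, h' x := by
      refine ih (fun j i => T j i.succ) (fun i => hT i.succ) f' hm1 _ hB' hb' hR' h' hm2 ?_
      intro x' hx'
      -- the one-dimensional inequality
      have hne : Nonempty {j // T j 0} := by
        by_contra hemp
        rw [not_nonempty_iff] at hemp
        have h1 := hT 0
        have h2 : ∑ j, (if T j 0 then c j else 0) = 0 := by
          apply Finset.sum_eq_zero
          intro j _
          rw [if_neg fun hj => hemp.elim ⟨j, hj⟩]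
        rw [h2] at h1
        exact zero_ne_one h1
      have hsum : ∑ j : {j // T j 0}, c j = 1 := by
        rw [← hT 0, ← Finset.sum_filter]
        exact (Finset.sum_subtype _ (fun j => by simp) c).symm
      have hsplit : ∀ F : β → ℝ≥0∞, ∏ j, F j =
          (∏ j : {j // ¬ T j 0}, F j) * ∏ j : {j // T j 0}, F j := by
        intro F
        rw [mul_comm]
        exact (Fintype.prod_subtype_mul_prod_subtype (fun j => T j 0) F).symm
      have key := pl_one (β := {j // T j 0}) (fun j => c j) (fun j => hc j) hsum
        (fun j t => f j (Fin.cons t (x' j))) (fun j => hfx j _) hB (fun j t => hfB j _)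
        (fun t => h (Fin.cons t (fun i => ∑ j, c j * x' j i)))
        ((hh.comp measurable_cons).comp (measurable_id.prodMk measurable_const))
        (C := ∏ j : {j // ¬ T j 0}, f j (Fin.cons 0 (x' j)) ^ c j)
        (ENNReal.prod_ne_top fun j _ => ENNReal.rpow_ne_top_of_nonneg (hc j).le
          ((hfB j _).trans_lt (lt_top_iff_ne_top.2 hB)).ne) ?_
      · rw [hsplit]
        refine le_trans (le_of_eq ?_) key
        congr 1
        · apply Finset.prod_congr rfl
          intro j _
          simp only [hf']
          rw [lintegral_mi_false j.2 (hfx j _)]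
        · apply Finset.prod_congr rfl
          intro j _
          simp only [hf']
          rw [lintegral_mi_true j.2]
      · intro t
        set y : β → Fin (d + 1) → ℝ := fun j =>
          Fin.cons (if hj : T j 0 then t ⟨j, hj⟩ else 0) (x' j) with hy
        have h1 := H y (by
          intro j i
          refine Fin.cases ?_ (fun i' => ?_) i
          · intro hj
            simp only [hy, Fin.cons_zero]
            rw [dif_neg hj]
          · intro hj
            simp only [hy, Fin.cons_succ]
            exact hx' j i' hj)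
        have h2 : (fun i => ∑ j, c j * y j i) =
            Fin.cons (∑ j : {j // T j 0}, c j * t j) (fun i => ∑ j, c j * x' j i) := by
          funext i
          refine Fin.cases ?_ (fun i' => ?_) i
          · rw [Fin.cons_zero]
            have h3 : ∀ j, c j * y j 0 = if hj : T j 0 then c j * t ⟨j, hj⟩ else 0 := by
              intro j
              simp only [hy, Fin.cons_zero]
              split_ifs with hj
              · rfl
              · rw [mul_zero]
            simp_rw [h3]
            rw [← Fintype.sum_subtype_add_sum_subtype (fun j => T j 0)]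
            have h4 : ∑ j : {j // ¬ T j 0}, (if hj : T j 0 then c j * t ⟨j, hj⟩ else 0) = 0 :=
              Finset.sum_eq_zero fun j _ => dif_neg j.2
            rw [h4, add_zero]
            apply Finset.sum_congr rfl
            intro j _
            rw [dif_pos j.2]
          · rw [Fin.cons_succ]
            simp only [hy, Fin.cons_succ]
        rw [h2, hsplit] at h1
        refine le_trans (le_of_eq ?_) h1
        congr 1
        · apply Finset.prod_congr rfl
          intro j _
          simp only [hy]
          rw [dif_neg j.2]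
        · apply Finset.prod_congr rfl
          intro j _
          simp only [hy]
          rw [dif_pos j.2]
    have e3 : ∀ j, ∫⁻ x, f j x ∂(mu (T j)) = ∫⁻ x', f' j x' ∂(mu fun i => T j i.succ) := fun j =>
      lintegral_mu_succ (T j) (hf j)
    have e4 : ∫⁻ x, h x = ∫⁻ x', h' x' := by
      have h1 := lintegral_mu_succ (fun _ : Fin (d + 1) => True) hh
      have h2 : ∀ m : ℕ, (mu fun _ : Fin m => True) = (volume : Measure (Fin m → ℝ)) := by
        intro m
        unfold mu mi
        simp only [if_true]
        rfl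
      rw [h2, h2] at h1
      rw [h1]
      apply lintegral_congr
      intro x'
      rw [lintegral_mi_true trivial]
    simp_rw [e3]
    rw [e4]
    exact hfin

end Pool.Agent.Q156.SX
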