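import Pool.Agent.Q156.SX.B

set_option autoImplicit false

open MeasureTheory Set Filter Topology
open scoped ENNReal Pointwise Classical

namespace Pool.Agent.Q156.SX

lemma mu_true {ι : Type*} [Fintype ι] : (mu fun _ : ι => True) = (volume : Measure (ι → ℝ)) := by
  unfold mu mi
  simp only [if_true]
  rfl

instance {ι : Type*} [Fintype ι] (T : ι → Prop) : SigmaFinite (mu T) := by
  unfold mu; infer_instance

/-- reindexing -/
noncomputable def re {ι : Type*} {d : ℕ} (e : Fin d ≃ ι) : (Fin d → ℝ) ≃ᵐ (ι → ℝ) :=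
  MeasurableEquiv.piCongrLeft (fun _ => ℝ) e

lemma re_apply {ι : Type*} {d : ℕ} (e : Fin d ≃ ι) (x : Fin d → ℝ) (i : Fin d) :
    re e x (e i) = x i := by
  unfold re
  exact Equiv.piCongrLeft_apply_apply (P := fun _ => ℝ) e x i

lemma mp_re {ι : Type*} [Fintype ι] {d : ℕ} (e : Fin d ≃ ι) (T : ι → Prop) :
    MeasurePreserving (re e) (mu fun i => T (e i)) (mu T) :=
  measurePreserving_piCongrLeft (fun i => mi (T i)) e

/-- the reverse Brascamp-Lieb inequality for a general finite index set of coordinates -/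
theorem rbl' {β ι : Type*} [Fintype β] [Fintype ι] (c : β → ℝ) (hc : ∀ j, 0 < c j) (R : ℝ)
    (T : β → ι → Prop) (hT : ∀ i, ∑ j, (if T j i then c j else 0) = 1)
    (f : β → (ι → ℝ) → ℝ≥0∞) (hf : ∀ j, Measurable (f j)) (B : ℝ≥0∞) (hB : B ≠ ⊤)
    (hfB : ∀ j x, f j x ≤ B) (hfR : ∀ j x, f j x ≠ 0 → ∀ i, |x i| ≤ R)
    (h : (ι → ℝ) → ℝ≥0∞) (hh : Measurable h)
    (H : ∀ x : β → ι → ℝ, (∀ j i, ¬ T j i → x j i = 0) →
      ∏ j, f j (x j) ^ c j ≤ h (fun i => ∑ j, c j * x j i)) :
    ∏ j, (∫⁻ x, f j x ∂(mu (T j))) ^ c j ≤ ∫⁻ x, h x := by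
  set e : Fin (Fintype.card ι) ≃ ι := (Fintype.equivFin ι).symm with he
  have h1 : ∀ (S : ι → Prop) (F : (ι → ℝ) → ℝ≥0∞), Measurable F →
      ∫⁻ x, F x ∂(mu S) = ∫⁻ y, F (re e y) ∂(mu fun i => S (e i)) := fun S F hF =>
    ((mp_re e S).lintegral_comp hF).symm
  have h2 : ∫⁻ x, h x = ∫⁻ y, h (re e y) := by
    have := h1 (fun _ => True) h hh
    rwa [mu_true, mu_true] at this
  rw [h2]
  have h3 : ∀ j, ∫⁻ x, f j x ∂(mu (T j)) = ∫⁻ y, f j (re e y) ∂(mu fun i => T j (e i)) := fun j =>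
    h1 (T j) (f j) (hf j)
  simp_rw [h3]
  apply rbl c hc R _ (fun j i => T j (e i)) (fun i => hT (e i)) (fun j y => f j (re e y))
    (fun j => (hf j).comp (re e).measurable) B hB (fun j y => hfB j _) ?_ (fun y => h (re e y))
    (hh.comp (re e).measurable) ?_
  · intro j y h0 i
    have := hfR j _ h0 (e i)
    rwa [re_apply] at this
  · intro x hx
    have h4 := H (fun j => re e (x j)) (by
      intro j i hi
      obtain ⟨i', rfl⟩ := e.surjective i
      rw [re_apply]
      exact hx j i' hi)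
    refine h4.trans (le_of_eq ?_)
    congr 1
    funext i
    obtain ⟨i', rfl⟩ := e.surjective i
    rw [re_apply]
    apply Finset.sum_congr rfl
    intro j _
    rw [re_apply]

/-! ### Scaling -/

/-- the dimension of the coordinate subspace -/
noncomputable def dm {ι : Type*} [Fintype ι] (T : ι → Prop) : ℕ := (Finset.univ.filter T).card

lemma smul_sf {c : ℝ≥0∞} (hc : c ≠ ⊤) (μ : Measure ℝ) [SigmaFinite μ] : SigmaFinite (c • μ) := by
  lift c to NNReal using hc
  have : (c : ℝ≥0∞) • μ = c • μ := rfl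
  rw [this]
  infer_instance

lemma pi_smul' {ι : Type*} [Fintype ι] (c : ι → ℝ≥0∞) (hc : ∀ i, c i ≠ ⊤) (T : ι → Prop) :
    Measure.pi (fun i => c i • mi (T i)) = (∏ i, c i) • mu T := by
  have : ∀ i, SigmaFinite (c i • mi (T i)) := fun i => smul_sf (hc i) _
  apply Measure.pi_eq
  intro s hs
  rw [Measure.smul_apply, smul_eq_mul]
  unfold mu
  rw [Measure.pi_pi, ← Finset.prod_mul_distrib]
  rfl

lemma map_mi {r : ℝ} (hr : 0 < r) (b : Prop) :
    (mi b).map (fun t => r * t) = (if b then ENNReal.ofReal r⁻¹ else 1) • mi b := by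
  unfold mi
  split_ifs with hb
  · rw [Real.map_volume_mul_left hr.ne', abs_of_pos (inv_pos.2 hr)]
  · rw [Measure.map_dirac' (by fun_prop), mul_zero, one_smul]

lemma lintegral_scale {ι : Type*} [Fintype ι] (T : ι → Prop) {r : ℝ} (hr : 0 < r)
    {f : (ι → ℝ) → ℝ≥0∞} (hf : Measurable f) :
    ∫⁻ x, f (r • x) ∂(mu T) = ENNReal.ofReal (r ^ dm T)⁻¹ * ∫⁻ x, f x ∂(mu T) := by
  have hmeas : Measurable fun x : ι → ℝ => r • x := by fun_prop
  have h1 : (mu T).map (fun x : ι → ℝ => r • x) = ENNReal.ofReal (r ^ dm T)⁻¹ • mu T := by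
    have hs : ∀ i, SigmaFinite ((mi (T i)).map (fun t => r * t)) := by
      intro i
      rw [map_mi hr]
      apply smul_sf
      split_ifs <;> simp
    have h2 : (mu T).map (fun (x : ι → ℝ) i => r * x i) =
        Measure.pi fun i => (mi (T i)).map (fun t => r * t) :=
      Measure.pi_map_pi (μ := fun i => mi (T i)) (f := fun _ t => r * t)
        (fun i => (by fun_prop : Measurable fun t : ℝ => r * t).aemeasurable)
    have h3 : (fun x : ι → ℝ => r • x) = fun (x : ι → ℝ) i => r * x i := rfl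
    rw [h3, h2]
    simp_rw [map_mi hr]
    rw [pi_smul' _ (fun i => by split_ifs <;> simp)]
    congr 1
    rw [Finset.prod_ite, Finset.prod_const, Finset.prod_const_one, mul_one,
      ← ENNReal.ofReal_pow (by positivity), inv_pow]
    rfl
  rw [← lintegral_map hf hmeas, h1, lintegral_smul_measure, smul_eq_mul]

end Pool.Agent.Q156.SX
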