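import Pool.Agent.Q156.SX.C
import Pool.Agent.Q156.RM.A

set_option autoImplicit false

open MeasureTheory Set Filter Topology
open scoped ENNReal Pointwise Classical

namespace Pool.Agent.Q156.SX

variable {ι : Type*}

/-- the weight -/
noncomputable def wt (p : ℕ) (u : ℝ) : ℝ≥0∞ := ENNReal.ofReal (u ^ (p + 1))⁻¹

lemma wt_meas (p : ℕ) : Measurable (wt p) := by unfold wt; fun_prop

lemma wt_ne_top (p : ℕ) (u : ℝ) : wt p u ≠ ⊤ := ENNReal.ofReal_ne_top

lemma wt_pos (p : ℕ) {u : ℝ} (hu : 0 < u) : 0 < wt p u := by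
  unfold wt; exact ENNReal.ofReal_pos.2 (by positivity)

/-- `A_p(x) = ∫_0^∞ u^(-p-1) g(x/u) du` -/
noncomputable def Ap (g : (ι → ℝ) → ℝ≥0∞) (p : ℕ) (x : ι → ℝ) : ℝ≥0∞ :=
  ∫⁻ u in Ioi (0 : ℝ), wt p u * g (u⁻¹ • x)

/-- Ball's gauge function -/
noncomputable def Np (g : (ι → ℝ) → ℝ≥0∞) (p : ℕ) (x : ι → ℝ) : ℝ≥0∞ :=
  ((p : ℝ≥0∞) * Ap g p x) ^ (-(1 / p) : ℝ)

/-- `e^{-y}` -/
noncomputable def psi (y : ℝ≥0∞) : ℝ≥0∞ :=
  if y = ⊤ then 0 else ENNReal.ofReal (Real.exp (-y.toReal))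

lemma psi_meas : Measurable psi := by
  unfold psi
  refine Measurable.ite (measurableSet_eq) measurable_const ?_
  fun_prop

lemma psi_le_one (y : ℝ≥0∞) : psi y ≤ 1 := by
  unfold psi
  split_ifs
  · exact zero_le
  · rw [← ENNReal.ofReal_one]
    apply ENNReal.ofReal_le_ofReal
    rw [Real.exp_le_one_iff]
    simp

lemma psi_anti {y z : ℝ≥0∞} (h : y ≤ z) : psi z ≤ psi y := by
  unfold psi
  by_cases hz : z = ⊤
  · rw [if_pos hz]; exact zero_le
  · have hy : y ≠ ⊤ := (h.trans_lt (lt_top_iff_ne_top.2 hz)).ne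
    rw [if_neg hz, if_neg hy]
    apply ENNReal.ofReal_le_ofReal
    rw [Real.exp_le_exp]
    have := ENNReal.toReal_mono hz h
    linarith

lemma psi_sum {β : Type*} (J : Finset β) (c : β → ℝ) (hc : ∀ j, 0 < c j) (y : β → ℝ≥0∞) :
    psi (∑ j ∈ J, ENNReal.ofReal (c j) * y j) = ∏ j ∈ J, psi (y j) ^ c j := by
  by_cases h : ∃ j ∈ J, y j = ⊤
  · obtain ⟨j, hjJ, hj⟩ := h
    have h1 : ∑ j ∈ J, ENNReal.ofReal (c j) * y j = ⊤ := by
      rw [ENNReal.sum_eq_top]
      refine ⟨j, hjJ, ?_⟩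
      rw [hj]
      exact ENNReal.mul_top (ENNReal.ofReal_pos.2 (hc j)).ne'
    rw [h1]
    symm
    have : psi ⊤ = 0 := by unfold psi; rw [if_pos rfl]
    rw [this]
    apply Finset.prod_eq_zero hjJ
    rw [hj, this, ENNReal.zero_rpow_of_pos (hc j)]
  · push Not at h
    have hne : ∀ j ∈ J, ENNReal.ofReal (c j) * y j ≠ ⊤ := fun j hj =>
      ENNReal.mul_ne_top ENNReal.ofReal_ne_top (h j hj)
    have h1 : ∑ j ∈ J, ENNReal.ofReal (c j) * y j ≠ ⊤ := ENNReal.sum_ne_top.2 hne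
    have h2 : ∀ j ∈ J, psi (y j) ^ c j = ENNReal.ofReal (Real.exp (-(c j * (y j).toReal))) := by
      intro j hj
      unfold psi
      rw [if_neg (h j hj), ENNReal.ofReal_rpow_of_pos (Real.exp_pos _), ← Real.exp_mul]
      congr 2
      ring
    rw [Finset.prod_congr rfl h2, ← ENNReal.ofReal_prod_of_nonneg (fun _ _ => (Real.exp_pos _).le),
      ← Real.exp_sum]
    unfold psi
    rw [if_neg h1, ENNReal.toReal_sum hne]
    congr 2
    rw [Finset.sum_neg_distrib]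
    congr 1
    apply Finset.sum_congr rfl
    intro j _
    rw [ENNReal.toReal_mul, ENNReal.toReal_ofReal (hc j).le]

lemma gm {g : (ι → ℝ) → ℝ≥0∞} (hg : Measurable g) :
    Measurable fun z : (ι → ℝ) × ℝ => g (z.2⁻¹ • z.1) := by
  apply hg.comp
  rw [measurable_pi_iff]
  intro i
  exact measurable_snd.inv.mul ((measurable_pi_apply i).comp measurable_fst)

lemma gm2 {g : (ι → ℝ) → ℝ≥0∞} (hg : Measurable g) (x : ι → ℝ) :
    Measurable fun u : ℝ => g (u⁻¹ • x) := by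
  apply hg.comp
  rw [measurable_pi_iff]
  intro i
  exact measurable_id.inv.mul measurable_const

lemma Ap_meas {g : (ι → ℝ) → ℝ≥0∞} (hg : Measurable g) (p : ℕ) : Measurable (Ap g p) := by
  unfold Ap
  have : Measurable fun z : (ι → ℝ) × ℝ => wt p z.2 * g (z.2⁻¹ • z.1) :=
    ((wt_meas p).comp measurable_snd).mul (gm hg)
  exact this.lintegral_prod_right'

lemma Np_meas {g : (ι → ℝ) → ℝ≥0∞} (hg : Measurable g) (p : ℕ) : Measurable (Np g p) := by
  unfold Np
  exact ((Ap_meas hg p).const_mul _).pow_const _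

lemma Ap_smul {g : (ι → ℝ) → ℝ≥0∞} (hg : Measurable g) (p : ℕ) {c : ℝ} (hc : 0 < c)
    (x : ι → ℝ) : Ap g p (c • x) = ENNReal.ofReal (c ^ p)⁻¹ * Ap g p x := by
  set f : ℝ → ℝ≥0∞ := (Ioi (0 : ℝ)).indicator fun u => wt p u * g (u⁻¹ • (c • x)) with hf
  have hfm : Measurable f := ((wt_meas p).mul (gm2 hg (c • x))).indicator measurableSet_Ioi
  have h1 : Ap g p (c • x) = ∫⁻ u, f u := by
    unfold Ap
    rw [← lintegral_indicator measurableSet_Ioi]
  have h2 : ∫⁻ s, f (c * s) = ENNReal.ofReal c⁻¹ * ∫⁻ r, f r := by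
    have e : ∫⁻ s, f (c * s) = ∫⁻ r, f r ∂(Measure.map (fun x : ℝ => c * x) volume) :=
      (lintegral_map hfm (by fun_prop)).symm
    rw [e, Real.map_volume_mul_left hc.ne', lintegral_smul_measure, smul_eq_mul,
      abs_of_pos (inv_pos.2 hc)]
  have h3 : ∫⁻ r, f r = ENNReal.ofReal c * ∫⁻ s, f (c * s) := by
    rw [h2, ← mul_assoc, ← ENNReal.ofReal_mul hc.le, mul_inv_cancel₀ hc.ne', ENNReal.ofReal_one,
      one_mul]
  have h4 : ∀ s, f (c * s) = ENNReal.ofReal (c ^ (p + 1))⁻¹ *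
      (Ioi (0 : ℝ)).indicator (fun u => wt p u * g (u⁻¹ • x)) s := by
    intro s
    rw [hf]
    by_cases hs : 0 < s
    · rw [indicator_of_mem (show c * s ∈ Ioi (0 : ℝ) from mul_pos hc hs),
        indicator_of_mem (show s ∈ Ioi (0 : ℝ) from hs)]
      unfold wt
      rw [mul_pow, mul_inv, ENNReal.ofReal_mul (by positivity), mul_assoc]
      congr 3
      rw [smul_smul]
      have : (c * s)⁻¹ * c = s⁻¹ := by field_simp
      rw [this]
    · have hcs : c * s ∉ Ioi (0 : ℝ) := by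
        rw [mem_Ioi, not_lt]
        exact mul_nonpos_of_nonneg_of_nonpos hc.le (not_lt.1 hs)
      rw [indicator_of_notMem hcs, indicator_of_notMem (show s ∉ Ioi (0 : ℝ) from hs), mul_zero]
  rw [h1, h3]
  simp_rw [h4]
  rw [lintegral_const_mul' _ _ ENNReal.ofReal_ne_top, lintegral_indicator measurableSet_Ioi,
    ← mul_assoc, ← ENNReal.ofReal_mul hc.le]
  congr 2
  field_simp
  ring

lemma Np_smul {g : (ι → ℝ) → ℝ≥0∞} (hg : Measurable g) {p : ℕ} (hp : 0 < p) {c : ℝ} (hc : 0 < c)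
    (x : ι → ℝ) : Np g p (c • x) = ENNReal.ofReal c * Np g p x := by
  have hp' : (p : ℝ) ≠ 0 := by positivity
  unfold Np
  rw [Ap_smul hg p hc, ← mul_assoc, mul_comm (p : ℝ≥0∞), mul_assoc, ENNReal.mul_rpow_eq_ite,
    if_neg]
  · congr 1
    rw [ENNReal.ofReal_rpow_of_pos (by positivity)]
    congr 1
    rw [← Real.rpow_natCast, ← Real.rpow_neg hc.le, ← Real.rpow_mul hc.le]
    have : -(p : ℝ) * -(1 / (p : ℝ)) = 1 := by field_simp
    rw [this, Real.rpow_one]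
  · rintro ⟨h | h, -⟩
    · have : 0 < ENNReal.ofReal (c ^ p)⁻¹ := ENNReal.ofReal_pos.2 (by positivity)
      exact this.ne' h.1
    · exact ENNReal.ofReal_ne_top h.1

/-- tail integral of the weight -/
lemma wt_tail {p : ℕ} (hp : 0 < p) {b : ℝ} (hb : 0 < b) :
    (p : ℝ≥0∞) * ∫⁻ u in Ioi b, wt p u = ENNReal.ofReal (b ^ p)⁻¹ := by
  have hp' : (0 : ℝ) < p := by exact_mod_cast hp
  have h := Pool.Agent.Q156.RM.lintegral_tail hp' hb
  have h1 : ∀ u ∈ Ioi b, ENNReal.ofReal ((p : ℝ) * u ^ (-(p : ℝ) - 1)) = (p : ℝ≥0∞) * wt p u := by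
    intro u hu
    have hu0 : 0 < u := hb.trans hu
    unfold wt
    rw [ENNReal.ofReal_mul hp'.le, ENNReal.ofReal_natCast]
    congr 2
    have : -(p : ℝ) - 1 = -((p + 1 : ℕ) : ℝ) := by push_cast; ring
    rw [this, Real.rpow_neg hu0.le, Real.rpow_natCast]
  rw [setLIntegral_congr_fun measurableSet_Ioi h1, lintegral_const_mul' _ _
    (ENNReal.natCast_ne_top p)] at h
  rw [h, Real.rpow_neg hb.le, Real.rpow_natCast]

lemma rpow_anti {a b : ℝ≥0∞} (h : a ≤ b) {r : ℝ} (hr : 0 ≤ r) : b ^ (-r) ≤ a ^ (-r) := by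
  rw [ENNReal.rpow_neg, ENNReal.rpow_neg]
  exact ENNReal.inv_le_inv.2 (ENNReal.rpow_le_rpow h hr)

/-- comparison of the gauge functions of different orders -/
lemma bath {g : (ι → ℝ) → ℝ≥0∞} (hg : Measurable g) (hg1 : ∀ x, g x ≤ 1) {p d : ℕ} (hp : 0 < p)
    (hpd : p ≤ d) (x : ι → ℝ) : Np g d x ≤ Np g p x := by
  have hd : 0 < d := hp.trans_le hpd
  have hp' : (0 : ℝ) < p := by exact_mod_cast hp
  have hd' : (0 : ℝ) < d := by exact_mod_cast hd
  set G : ℝ → ℝ≥0∞ := fun u => g (u⁻¹ • x) with hG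
  have hGm : Measurable G := gm2 hg x
  have hG1 : ∀ u, G u ≤ 1 := fun u => hg1 _
  -- general lower bound for `A_d`
  have main : ∀ b : ℝ, 0 < b → ((p : ℝ≥0∞) * Ap g p x ≥ ENNReal.ofReal (b ^ p)⁻¹) →
      ENNReal.ofReal (b ^ d)⁻¹ ≤ (d : ℝ≥0∞) * Ap g d x := by
    intro b hb hA
    rw [ge_iff_le, ← wt_tail hp hb] at hA
    have hp0 : (p : ℝ≥0∞) ≠ 0 := by exact_mod_cast hp.ne'
    have hA2 : ∫⁻ u in Ioi b, wt p u ≤ Ap g p x :=
      (ENNReal.mul_le_mul_iff_right hp0 (ENNReal.natCast_ne_top p)).1 hA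
    have hsplit : ∀ k : ℕ, Ap g k x = (∫⁻ u in Ioc 0 b, wt k u * G u) +
        ∫⁻ u in Ioi b, wt k u * G u := by
      intro k
      unfold Ap
      rw [← Ioc_union_Ioi_eq_Ioi hb.le, lintegral_union measurableSet_Ioi Ioc_disjoint_Ioi_same]
    have hcomp : ∀ k : ℕ, ∫⁻ u in Ioi b, wt k u =
        (∫⁻ u in Ioi b, wt k u * (1 - G u)) + ∫⁻ u in Ioi b, wt k u * G u := by
      intro k
      have hm : Measurable fun u => wt k u * (1 - G u) :=
        (wt_meas k).mul (measurable_const.sub hGm)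
      rw [← lintegral_add_left hm]
      apply lintegral_congr
      intro u
      rw [← mul_add, tsub_add_cancel_of_le (hG1 u), mul_one]
    have hfinp : ∫⁻ u in Ioi b, wt p u * G u ≠ ⊤ := by
      have h1 : ∫⁻ u in Ioi b, wt p u ≠ ⊤ := by
        intro h
        have := wt_tail hp hb
        rw [h, ENNReal.mul_top hp0] at this
        exact ENNReal.ofReal_ne_top this.symm
      refine ((lintegral_mono fun u => ?_).trans_lt (lt_top_iff_ne_top.2 h1)).ne
      calc wt p u * G u ≤ wt p u * 1 := mul_le_mul_right (hG1 u) _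
        _ = wt p u := mul_one _
    have hJ : ∫⁻ u in Ioi b, wt p u * (1 - G u) ≤ ∫⁻ u in Ioc 0 b, wt p u * G u := by
      rw [hcomp p, hsplit p] at hA2
      exact (ENNReal.add_le_add_iff_right hfinp).1 hA2
    -- weights
    have hw1 : ∀ u ∈ Ioi b, wt d u ≤ ENNReal.ofReal (b ^ (d - p))⁻¹ * wt p u := by
      intro u hu
      have hu0 : 0 < u := hb.trans hu
      unfold wt
      rw [← ENNReal.ofReal_mul (by positivity)]
      apply ENNReal.ofReal_le_ofReal
      rw [← mul_inv]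
      apply inv_anti₀ (by positivity)
      have e : u ^ (d + 1) = u ^ (d - p) * u ^ (p + 1) := by
        rw [← pow_add]; congr 1; omega
      rw [e]
      exact mul_le_mul_of_nonneg_right (pow_le_pow_left₀ hb.le (le_of_lt hu) _) (by positivity)
    have hw2 : ∀ u ∈ Ioc (0 : ℝ) b, ENNReal.ofReal (b ^ (d - p))⁻¹ * wt p u ≤ wt d u := by
      intro u hu
      have hu0 : 0 < u := hu.1
      unfold wt
      rw [← ENNReal.ofReal_mul (by positivity)]
      apply ENNReal.ofReal_le_ofReal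
      rw [← mul_inv]
      apply inv_anti₀ (by positivity)
      have e : u ^ (d + 1) = u ^ (d - p) * u ^ (p + 1) := by
        rw [← pow_add]; congr 1; omega
      rw [e]
      exact mul_le_mul_of_nonneg_right (pow_le_pow_left₀ hu0.le hu.2 _) (by positivity)
    have step : ∫⁻ u in Ioi b, wt d u ≤ Ap g d x := by
      rw [hcomp d, hsplit d]
      refine add_le_add ?_ le_rfl
      calc ∫⁻ u in Ioi b, wt d u * (1 - G u)
          ≤ ∫⁻ u in Ioi b, ENNReal.ofReal (b ^ (d - p))⁻¹ * (wt p u * (1 - G u)) :=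
            setLIntegral_mono' measurableSet_Ioi fun u hu => by
              rw [← mul_assoc]; exact mul_le_mul_left (hw1 u hu) _
        _ = ENNReal.ofReal (b ^ (d - p))⁻¹ * ∫⁻ u in Ioi b, wt p u * (1 - G u) :=
            lintegral_const_mul' _ _ ENNReal.ofReal_ne_top
        _ ≤ ENNReal.ofReal (b ^ (d - p))⁻¹ * ∫⁻ u in Ioc 0 b, wt p u * G u :=
            mul_le_mul_right hJ _
        _ = ∫⁻ u in Ioc 0 b, ENNReal.ofReal (b ^ (d - p))⁻¹ * (wt p u * G u) :=
            (lintegral_const_mul' _ _ ENNReal.ofReal_ne_top).symm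
        _ ≤ ∫⁻ u in Ioc 0 b, wt d u * G u :=
            setLIntegral_mono' measurableSet_Ioc fun u hu => by
              rw [← mul_assoc]; exact mul_le_mul_left (hw2 u hu) _
    rw [← wt_tail hd hb]
    exact mul_le_mul_right step _
  -- conclusion
  by_contra hcon
  push Not at hcon
  obtain ⟨b, hb0, hb3, hb4⟩ := ENNReal.lt_iff_exists_real_btwn.1 hcon
  have hbpos : 0 < b := by
    rcases eq_or_lt_of_le hb0 with h | h
    · rw [← h, ENNReal.ofReal_zero] at hb3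
      exact absurd hb3 (not_lt.2 zero_le)
    · exact h
  have e1 : ∀ k : ℕ, 0 < k → ENNReal.ofReal b = (ENNReal.ofReal (b ^ k)⁻¹) ^ (-(1 / k) : ℝ) := by
    intro k hk
    have hk' : (k : ℝ) ≠ 0 := by positivity
    rw [ENNReal.ofReal_rpow_of_pos (by positivity)]
    congr 1
    rw [← Real.rpow_natCast, ← Real.rpow_neg hbpos.le, ← Real.rpow_mul hbpos.le]
    have : -(k : ℝ) * -(1 / (k : ℝ)) = 1 := by field_simp
    rw [this, Real.rpow_one]
  have h1 : (p : ℝ≥0∞) * Ap g p x ≥ ENNReal.ofReal (b ^ p)⁻¹ := by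
    by_contra h
    rw [ge_iff_le, not_le] at h
    rw [e1 p hp] at hb3
    unfold Np at hb3
    have h2 : (ENNReal.ofReal (b ^ p)⁻¹) ^ (-(1 / p) : ℝ) ≤
        ((p : ℝ≥0∞) * Ap g p x) ^ (-(1 / p) : ℝ) :=
      rpow_anti h.le (by positivity)
    exact absurd hb3 (not_lt.2 h2)
  have h3 := main b hbpos h1
  rw [e1 d hd] at hb4
  unfold Np at hb4
  have h4 : ((d : ℝ≥0∞) * Ap g d x) ^ (-(1 / d) : ℝ) ≤
      (ENNReal.ofReal (b ^ d)⁻¹) ^ (-(1 / d) : ℝ) :=
    rpow_anti h3 (by positivity)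
  exact absurd hb4 (not_lt.2 h4)

end Pool.Agent.Q156.SX
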