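import Pool.Agent.Q156.SX.D

set_option autoImplicit false

open MeasureTheory Set Filter Topology
open scoped ENNReal Pointwise Classical

namespace Pool.Agent.Q156.SX

variable {ι : Type*} [Fintype ι]

lemma smul_meas {g : (ι → ℝ) → ℝ≥0∞} (hg : Measurable g) :
    Measurable fun z : (ι → ℝ) × ℝ => g (z.2 • z.1) := by
  apply hg.comp
  rw [measurable_pi_iff]
  intro i
  exact measurable_snd.mul ((measurable_pi_apply i).comp measurable_fst)

lemma swap {g : (ι → ℝ) → ℝ≥0∞} (hg : Measurable g) (T : ι → Prop) {Ψ : (ι → ℝ) → ℝ≥0∞}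
    (hΨ : Measurable Ψ) :
    ∫⁻ x, Ψ x * Ap g (dm T) x ∂(mu T) =
      ∫⁻ y, g y * (∫⁻ u in Ioi (0 : ℝ), ENNReal.ofReal u⁻¹ * Ψ (u • y)) ∂(mu T) := by
  have h1 : ∀ x, Ψ x * Ap g (dm T) x =
      ∫⁻ u in Ioi (0 : ℝ), Ψ x * (wt (dm T) u * g (u⁻¹ • x)) := fun x => by
    unfold Ap
    have hm : Measurable fun u : ℝ => wt (dm T) u * g (u⁻¹ • x) := (wt_meas _).mul (gm2 hg x)
    exact (lintegral_const_mul _ hm).symm
  simp_rw [h1]
  rw [lintegral_lintegral_swap]
  · have h2 : ∀ u ∈ Ioi (0 : ℝ), ∫⁻ x, Ψ x * (wt (dm T) u * g (u⁻¹ • x)) ∂(mu T) =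
        ∫⁻ y, g y * (ENNReal.ofReal u⁻¹ * Ψ (u • y)) ∂(mu T) := by
      intro u hu
      have hu0 : (0 : ℝ) < u := hu
      have hm : Measurable fun x : ι → ℝ => g (u⁻¹ • x) := hg.comp (by fun_prop)
      have h3 := lintegral_scale T hu0 (f := fun x => Ψ x * (wt (dm T) u * g (u⁻¹ • x)))
        (hΨ.mul (hm.const_mul _))
      have h4 : ∫⁻ x, Ψ x * (wt (dm T) u * g (u⁻¹ • x)) ∂(mu T) = ENNReal.ofReal (u ^ dm T) *
          ∫⁻ y, Ψ (u • y) * (wt (dm T) u * g (u⁻¹ • (u • y))) ∂(mu T) := by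
        rw [h3, ← mul_assoc, ← ENNReal.ofReal_mul (by positivity), mul_inv_cancel₀ (by positivity),
          ENNReal.ofReal_one, one_mul]
      rw [h4, ← lintegral_const_mul' _ _ ENNReal.ofReal_ne_top]
      apply lintegral_congr
      intro y
      rw [smul_smul, inv_mul_cancel₀ hu0.ne', one_smul]
      have h5 : ENNReal.ofReal (u ^ dm T) * wt (dm T) u = ENNReal.ofReal u⁻¹ := by
        unfold wt
        rw [← ENNReal.ofReal_mul (by positivity)]
        congr 1
        field_simp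
        rw [pow_succ]
      rw [← h5]
      ring
    rw [setLIntegral_congr_fun measurableSet_Ioi h2, lintegral_lintegral_swap]
    · apply lintegral_congr
      intro y
      rw [lintegral_const_mul]
      apply Measurable.mul (by fun_prop)
      exact hΨ.comp (by fun_prop)
    · apply Measurable.aemeasurable
      have : Measurable fun z : ℝ × (ι → ℝ) => Ψ (z.1 • z.2) :=
        (smul_meas hΨ).comp measurable_swap
      exact (hg.comp measurable_snd).mul (Measurable.mul (by fun_prop) this)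
  · apply Measurable.aemeasurable
    exact (hΨ.comp measurable_fst).mul (((wt_meas _).comp measurable_snd).mul (gm hg))

lemma inner_gamma {p : ℕ} (hp : 0 < p) {c : ℝ≥0∞} (h0 : c ≠ 0) (ht : c ≠ ⊤) :
    ∫⁻ u in Ioi (0 : ℝ), ENNReal.ofReal u⁻¹ *
      ((p : ℝ≥0∞) * (psi (ENNReal.ofReal u * c) * (ENNReal.ofReal u * c) ^ p)) =
      (p.factorial : ℝ≥0∞) := by
  obtain ⟨r, hr, rfl⟩ : ∃ r : ℝ, 0 < r ∧ c = ENNReal.ofReal r :=
    ⟨c.toReal, ENNReal.toReal_pos h0 ht, (ENNReal.ofReal_toReal ht).symm⟩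
  have hp' : (0 : ℝ) < p := by exact_mod_cast hp
  have h1 : ∀ u ∈ Ioi (0 : ℝ), ENNReal.ofReal u⁻¹ *
      ((p : ℝ≥0∞) * (psi (ENNReal.ofReal u * ENNReal.ofReal r) *
        (ENNReal.ofReal u * ENNReal.ofReal r) ^ p)) =
      (p.factorial : ℝ≥0∞) * ProbabilityTheory.gammaPDF p r u := by
    intro u hu
    have hu0 : (0 : ℝ) < u := hu
    rw [ProbabilityTheory.gammaPDF_of_nonneg hu0.le, ← ENNReal.ofReal_mul hu0.le]
    unfold psi
    rw [if_neg ENNReal.ofReal_ne_top, ENNReal.toReal_ofReal (by positivity),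
      ← ENNReal.ofReal_pow (by positivity), ← ENNReal.ofReal_mul (by positivity),
      ← ENNReal.ofReal_natCast p, ← ENNReal.ofReal_mul (by positivity),
      ← ENNReal.ofReal_mul (by positivity), ← ENNReal.ofReal_natCast (p.factorial),
      ← ENNReal.ofReal_mul (by positivity)]
    congr 1
    obtain ⟨q, rfl⟩ : ∃ q, p = q + 1 := ⟨p - 1, by omega⟩
    have hG : Real.Gamma ((q + 1 : ℕ) : ℝ) = (q.factorial : ℝ) := by
      push_cast
      exact Real.Gamma_nat_eq_factorial q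
    have e1 : u ^ (((q + 1 : ℕ) : ℝ) - 1) = u ^ q := by
      push_cast
      rw [add_sub_cancel_right, Real.rpow_natCast]
    have e2 : r ^ ((q + 1 : ℕ) : ℝ) = r ^ (q + 1) := Real.rpow_natCast _ _
    rw [hG, e1, e2, Nat.factorial_succ, mul_pow, mul_comm r u]
    have : (q.factorial : ℝ) ≠ 0 := by positivity
    push_cast
    field_simp
    ring
  rw [setLIntegral_congr_fun measurableSet_Ioi h1, lintegral_const_mul' _ _
    (ENNReal.natCast_ne_top _)]
  have h2 : ∫⁻ u in Ioi (0 : ℝ), ProbabilityTheory.gammaPDF p r u = 1 := by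
    have h3 := lintegral_add_compl (μ := volume) (ProbabilityTheory.gammaPDF p r)
      (measurableSet_Ici (a := (0 : ℝ)))
    rw [compl_Ici, ProbabilityTheory.lintegral_gammaPDF_of_nonpos le_rfl, add_zero,
      ProbabilityTheory.lintegral_gammaPDF_eq_one hp' hr] at h3
    rw [restrict_Ioi_eq_restrict_Ici, h3]
  rw [h2, mul_one]

lemma Ap_lt_top {g : (ι → ℝ) → ℝ≥0∞} (hg1 : ∀ x, g x ≤ 1) {R : ℝ}
    (hR : ∀ x, g x ≠ 0 → ∀ i, |x i| ≤ R) {p : ℕ} (hp : 0 < p) {x : ι → ℝ} (hx : x ≠ 0) :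
    Ap g p x < ⊤ := by
  obtain ⟨i, hi⟩ : ∃ i, x i ≠ 0 := by
    by_contra h
    push Not at h
    exact hx (funext h)
  have hxi : 0 < |x i| := abs_pos.2 hi
  set b := |x i| / (|R| + 1) with hb
  have hb0 : 0 < b := by positivity
  have h1 : Ap g p x ≤ ∫⁻ u in Ioi b, wt p u := by
    unfold Ap
    rw [← lintegral_indicator measurableSet_Ioi, ← lintegral_indicator measurableSet_Ioi]
    apply lintegral_mono
    intro u
    by_cases hu : 0 < u
    · rw [indicator_of_mem (show u ∈ Ioi (0 : ℝ) from hu)]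
      by_cases hub : b < u
      · rw [indicator_of_mem (show u ∈ Ioi b from hub)]
        calc wt p u * g (u⁻¹ • x) ≤ wt p u * 1 := mul_le_mul_right (hg1 _) _
          _ = wt p u := mul_one _
      · have : g (u⁻¹ • x) = 0 := by
          by_contra h
          have h2 := hR _ h i
          rw [Pi.smul_apply, smul_eq_mul, abs_mul, abs_of_pos (inv_pos.2 hu)] at h2
          have h3 : u ≤ b := not_lt.1 hub
          rw [hb, le_div_iff₀ (by positivity)] at h3
          have h4 : |R| + 1 ≤ u⁻¹ * |x i| := by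
            rw [← div_eq_inv_mul, le_div_iff₀ hu]
            linarith
          have := le_abs_self R
          linarith
        rw [this, mul_zero]
        exact zero_le
    · rw [indicator_of_notMem (show u ∉ Ioi (0 : ℝ) from hu)]
      exact zero_le
  refine h1.trans_lt ?_
  rw [lt_top_iff_ne_top]
  intro h
  have h2 := wt_tail hp hb0
  rw [h, ENNReal.mul_top (by exact_mod_cast hp.ne')] at h2
  exact ENNReal.ofReal_ne_top h2.symm

lemma ae_ne_zero {T : ι → Prop} (hT : 0 < dm T) : ∀ᵐ x ∂(mu T), x ≠ 0 := by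
  unfold dm at hT
  obtain ⟨i, hi⟩ := Finset.card_pos.1 hT
  have hTi : T i := (Finset.mem_filter.1 hi).2
  rw [ae_iff]
  have hn : NullSingletonClass (mi (T i)) := by
    have : mi (T i) = (volume : Measure ℝ) := by
      unfold mi
      rw [if_pos hTi]
    rw [this]
    infer_instance
  refine measure_mono_null (t := {f : ι → ℝ | f i = 0}) ?_ ?_
  · intro x hx
    have : x = 0 := by simpa using hx
    rw [this]
    rfl
  · unfold mu
    exact @Measure.pi_hyperplane _ _ _ _ (fun i => mi (T i)) _ i hn 0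

lemma Np_zero_iff {g : (ι → ℝ) → ℝ≥0∞} {p : ℕ} (hp : 0 < p) (x : ι → ℝ) :
    Np g p x = 0 ↔ Ap g p x = ⊤ := by
  have hp' : (0 : ℝ) < 1 / p := by positivity
  unfold Np
  rw [ENNReal.rpow_neg, ENNReal.inv_eq_zero, ENNReal.rpow_eq_top_iff_of_pos hp',
    ENNReal.mul_eq_top]
  constructor
  · rintro (h | h)
    · exact h.2
    · exact absurd h.1 (ENNReal.natCast_ne_top p)
  · intro h
    exact Or.inl ⟨by exact_mod_cast hp.ne', h⟩

lemma Np_top_iff {g : (ι → ℝ) → ℝ≥0∞} {p : ℕ} (hp : 0 < p) (x : ι → ℝ) :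
    Np g p x = ⊤ ↔ Ap g p x = 0 := by
  have hp' : (0 : ℝ) < 1 / p := by positivity
  unfold Np
  rw [ENNReal.rpow_neg, ENNReal.inv_eq_top, ENNReal.rpow_eq_zero_iff_of_pos hp', mul_eq_zero]
  constructor
  · rintro (h | h)
    · exact absurd h (by exact_mod_cast hp.ne')
    · exact h
  · intro h
    exact Or.inr h

lemma Np_pow {g : (ι → ℝ) → ℝ≥0∞} {p : ℕ} (hp : 0 < p) (x : ι → ℝ) :
    Np g p x ^ p = ((p : ℝ≥0∞) * Ap g p x)⁻¹ := by
  have hp' : (p : ℝ) ≠ 0 := by positivity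
  unfold Np
  rw [← ENNReal.rpow_natCast, ← ENNReal.rpow_mul]
  have : -(1 / (p : ℝ)) * (p : ℝ) = -1 := by field_simp
  rw [this, ENNReal.rpow_neg_one]

theorem key_I {g : (ι → ℝ) → ℝ≥0∞} (hg : Measurable g) (hg1 : ∀ x, g x ≤ 1) {R : ℝ}
    (hR : ∀ x, g x ≠ 0 → ∀ i, |x i| ≤ R) (T : ι → Prop) (hT : 0 < dm T) :
    ∫⁻ x, psi (Np g (dm T) x) ∂(mu T) = ((dm T).factorial : ℝ≥0∞) * ∫⁻ x, g x ∂(mu T) := by
  set p := dm T with hp
  have hp0 : (p : ℝ≥0∞) ≠ 0 := by exact_mod_cast hT.ne'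
  -- cone trick
  have hZm : MeasurableSet {x : ι → ℝ | Ap g p x = 0} :=
    (Ap_meas hg p) (measurableSet_singleton 0)
  have cone : ∀ᵐ y ∂(mu T), Ap g p y = 0 → g y = 0 := by
    have h1 := swap hg T (Ψ := {x : ι → ℝ | Ap g p x = 0}.indicator 1)
      (measurable_one.indicator hZm)
    rw [← hp] at h1
    have h2 : ∀ x, ({x : ι → ℝ | Ap g p x = 0}.indicator 1 x : ℝ≥0∞) * Ap g p x = 0 := by
      intro x
      by_cases hx : Ap g p x = 0
      · rw [hx, mul_zero]
      · rw [indicator_of_notMem (show x ∉ {x : ι → ℝ | Ap g p x = 0} from hx), zero_mul]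
    simp_rw [h2] at h1
    rw [lintegral_zero] at h1
    have hmeas : Measurable fun y => g y * (∫⁻ u in Ioi (0 : ℝ), ENNReal.ofReal u⁻¹ *
        {x : ι → ℝ | Ap g p x = 0}.indicator 1 (u • y)) := by
      apply hg.mul
      have : Measurable fun z : (ι → ℝ) × ℝ => ENNReal.ofReal z.2⁻¹ *
        ({x : ι → ℝ | Ap g p x = 0}.indicator 1 (z.2 • z.1) : ℝ≥0∞) :=
        Measurable.mul (by fun_prop) (smul_meas (measurable_one.indicator hZm))
      exact this.lintegral_prod_right'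
    have h3 := (lintegral_eq_zero_iff hmeas).1 h1.symm
    filter_upwards [h3] with y hy hAy
    rw [Pi.zero_apply, mul_eq_zero] at hy
    rcases hy with hy | hy
    · exact hy
    · exfalso
      have h4 : ∀ u ∈ Ioi (0 : ℝ), ({x : ι → ℝ | Ap g p x = 0}.indicator 1 (u • y) : ℝ≥0∞) = 1 := by
        intro u hu
        have : u • y ∈ {x : ι → ℝ | Ap g p x = 0} := by
          change Ap g p (u • y) = 0
          rw [Ap_smul hg p hu, hAy, mul_zero]
        rw [indicator_of_mem this, Pi.one_apply]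
      have h5 : ∫⁻ u in Ioi (0 : ℝ), ENNReal.ofReal u⁻¹ *
          ({x : ι → ℝ | Ap g p x = 0}.indicator 1 (u • y) : ℝ≥0∞) =
          ∫⁻ u in Ioi (0 : ℝ), ENNReal.ofReal u⁻¹ :=
        setLIntegral_congr_fun measurableSet_Ioi fun u hu => by
          change ENNReal.ofReal u⁻¹ * _ = _
          rw [h4 u hu, mul_one]
      rw [h5] at hy
      have h6 : ENNReal.ofReal 2⁻¹ ≤ ∫⁻ u in Ioi (0 : ℝ), ENNReal.ofReal u⁻¹ := by
        calc ENNReal.ofReal 2⁻¹ = ∫⁻ u in Ioc (1 : ℝ) 2, ENNReal.ofReal 2⁻¹ := by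
              rw [setLIntegral_const, Real.volume_Ioc]
              norm_num
          _ ≤ ∫⁻ u in Ioc (1 : ℝ) 2, ENNReal.ofReal u⁻¹ :=
              setLIntegral_mono' measurableSet_Ioc fun u hu =>
                ENNReal.ofReal_le_ofReal (inv_anti₀ (by linarith [hu.1]) hu.2)
          _ ≤ ∫⁻ u in Ioi (0 : ℝ), ENNReal.ofReal u⁻¹ :=
              lintegral_mono_set fun u hu => by
                rw [mem_Ioi]; linarith [hu.1]
      rw [hy, nonpos_iff_eq_zero, ENNReal.ofReal_eq_zero] at h6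
      norm_num at h6
  -- main computation
  have hΨm : Measurable fun x => (p : ℝ≥0∞) * (psi (Np g p x) * Np g p x ^ p) :=
    ((psi_meas.comp (Np_meas hg p)).mul ((Np_meas hg p).pow_const p)).const_mul _
  have hsw := swap hg T hΨm
  rw [← hp] at hsw
  have hL : ∫⁻ x, psi (Np g p x) ∂(mu T) =
      ∫⁻ x, (p : ℝ≥0∞) * (psi (Np g p x) * Np g p x ^ p) * Ap g p x ∂(mu T) := by
    apply lintegral_congr_ae
    filter_upwards [ae_ne_zero hT] with x hx
    have hA := Ap_lt_top hg1 hR hT hx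
    by_cases hA0 : Ap g p x = 0
    · rw [(Np_top_iff hT x).2 hA0, hA0, mul_zero]
      unfold psi
      rw [if_pos rfl]
    · rw [Np_pow hT]
      have h7 : (p : ℝ≥0∞) * (psi (Np g p x) * ((p : ℝ≥0∞) * Ap g p x)⁻¹) * Ap g p x =
          psi (Np g p x) * (((p : ℝ≥0∞) * Ap g p x)⁻¹ * ((p : ℝ≥0∞) * Ap g p x)) := by ring
      rw [h7, ENNReal.inv_mul_cancel (mul_ne_zero hp0 hA0)
        (ENNReal.mul_ne_top (ENNReal.natCast_ne_top p) hA.ne), mul_one]
  rw [hL, hsw, ← lintegral_const_mul' _ _ (ENNReal.natCast_ne_top _)]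
  apply lintegral_congr_ae
  filter_upwards [ae_ne_zero hT, cone] with y hy hcone
  have hA := Ap_lt_top hg1 hR hT hy
  by_cases hA0 : Ap g p y = 0
  · rw [hcone hA0, zero_mul, mul_zero]
  · rw [mul_comm]
    congr 1
    rw [← inner_gamma hT (c := Np g p y) (fun h => hA.ne ((Np_zero_iff hT y).1 h))
      (fun h => hA0 ((Np_top_iff hT y).1 h))]
    apply setLIntegral_congr_fun measurableSet_Ioi
    intro u hu
    change ENNReal.ofReal u⁻¹ * _ = _
    rw [Np_smul hg hT hu]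

end Pool.Agent.Q156.SX
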