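import Pool.Agent.Q156.SX.E

set_option autoImplicit false

open MeasureTheory Set Filter Topology
open scoped ENNReal Pointwise Classical

namespace Pool.Agent.Q156.SX

variable {ι : Type*} [Fintype ι]

/-- log-concavity -/
def LC (g : (ι → ℝ) → ℝ≥0∞) : Prop :=
  ∀ x y : ι → ℝ, ∀ a b : ℝ, 0 < a → 0 < b → a + b = 1 → g x ^ a * g y ^ b ≤ g (a • x + b • y)

lemma real_ineq (n : ℕ) {u v p q t : ℝ} (hu : 0 < u) (hv : 0 < v) (hp : 0 < p) (hq : 0 < q)
    (ht : 0 < t) : t * ((u + v) / (p + q)) ^ n ≤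
      (t * (u / p) ^ n) ^ (u / (u + v)) * (t * (v / q) ^ n) ^ (v / (u + v)) := by
  set a := u / (u + v) with ha'
  set b := v / (u + v) with hb'
  have hab : a + b = 1 := by rw [ha', hb']; field_simp
  have ha : 0 ≤ a := by positivity
  have hb : 0 ≤ b := by positivity
  have h1 := Real.geom_mean_le_arith_mean2_weighted ha hb (p₁ := p / u) (p₂ := q / v)
    (by positivity) (by positivity) hab
  have h2 : a * (p / u) + b * (q / v) = (p + q) / (u + v) := by rw [ha', hb']; field_simp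
  rw [h2] at h1
  have h3 : (u / p) ^ a * (v / q) ^ b = ((p / u) ^ a * (q / v) ^ b)⁻¹ := by
    rw [mul_inv, ← Real.inv_rpow (by positivity), ← Real.inv_rpow (by positivity), inv_div,
      inv_div]
  have h4 : (u + v) / (p + q) ≤ (u / p) ^ a * (v / q) ^ b := by
    rw [h3, ← inv_div]
    exact inv_anti₀ (by positivity) h1
  have e1 : ((u / p) ^ n) ^ a = ((u / p) ^ a) ^ n := by
    rw [← Real.rpow_natCast, ← Real.rpow_natCast, ← Real.rpow_mul (by positivity),
      ← Real.rpow_mul (by positivity), mul_comm]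
  have e2 : ((v / q) ^ n) ^ b = ((v / q) ^ b) ^ n := by
    rw [← Real.rpow_natCast, ← Real.rpow_natCast, ← Real.rpow_mul (by positivity),
      ← Real.rpow_mul (by positivity), mul_comm]
  have e3 : t ^ a * t ^ b = t := by rw [← Real.rpow_add ht, hab, Real.rpow_one]
  calc t * ((u + v) / (p + q)) ^ n ≤ t * ((u / p) ^ a * (v / q) ^ b) ^ n := by gcongr
    _ = (t ^ a * t ^ b) * (((u / p) ^ a) ^ n * ((v / q) ^ b) ^ n) := by rw [e3, mul_pow]
    _ = (t * (u / p) ^ n) ^ a * (t * (v / q) ^ n) ^ b := by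
      rw [Real.mul_rpow ht.le (by positivity), Real.mul_rpow ht.le (by positivity), e1, e2]
      ring

lemma radon (d : ℕ) {p q a b : ℝ} (hp : 0 < p) (hq : 0 < q) (ha : 0 < a) (hb : 0 < b) :
    (p + q) ^ (d + 1) / (a + b) ^ d ≤ p ^ (d + 1) / a ^ d + q ^ (d + 1) / b ^ d := by
  have h := (convexOn_pow (𝕜 := ℝ) (d + 1)).2 (show p / a ∈ Ici (0 : ℝ) from (by positivity : (0:ℝ) ≤ p / a))
    (show q / b ∈ Ici (0 : ℝ) from (by positivity : (0:ℝ) ≤ q / b))
    (show 0 ≤ a / (a + b) by positivity) (show 0 ≤ b / (a + b) by positivity) (by field_simp)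
  simp only [smul_eq_mul] at h
  have e1 : a / (a + b) * (p / a) + b / (a + b) * (q / b) = (p + q) / (a + b) := by field_simp
  rw [e1] at h
  have h2 := mul_le_mul_of_nonneg_left h (show 0 ≤ a + b by positivity)
  have e2 : (a + b) * ((p + q) / (a + b)) ^ (d + 1) = (p + q) ^ (d + 1) / (a + b) ^ d := by
    rw [div_pow, pow_succ (a + b) d]; field_simp
  have e3 : (a + b) * (a / (a + b) * (p / a) ^ (d + 1) + b / (a + b) * (q / b) ^ (d + 1)) =
      p ^ (d + 1) / a ^ d + q ^ (d + 1) / b ^ d := by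
    rw [div_pow, div_pow, pow_succ a d, pow_succ b d]; field_simp
  rw [e2, e3] at h2
  exact h2

/-- the integrand of `A_p` -/
noncomputable def ph (g : (ι → ℝ) → ℝ≥0∞) (d : ℕ) (x : ι → ℝ) : ℝ → ℝ≥0∞ :=
  (Ioi (0 : ℝ)).indicator fun u => wt d u * g (u⁻¹ • x)

lemma ph_meas {g : (ι → ℝ) → ℝ≥0∞} (hg : Measurable g) (d : ℕ) (x : ι → ℝ) :
    Measurable (ph g d x) := by
  unfold ph
  exact ((wt_meas d).mul (gm2 hg x)).indicator measurableSet_Ioi

lemma Ap_eq (g : (ι → ℝ) → ℝ≥0∞) (d : ℕ) (x : ι → ℝ) : Ap g d x = ∫⁻ u, ph g d x u := by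
  unfold Ap ph
  rw [lintegral_indicator measurableSet_Ioi]

lemma ph_lower {g : (ι → ℝ) → ℝ≥0∞} {d : ℕ} {x : ι → ℝ} {p t u : ℝ} (hp : 0 < p) (ht : 0 < t)
    (h : ENNReal.ofReal t * ENNReal.ofReal (p ^ (d + 1))⁻¹ < ph g d x u) :
    0 < u ∧ ENNReal.ofReal (t * (u / p) ^ (d + 1)) ≤ g (u⁻¹ • x) := by
  have hu : 0 < u := by
    by_contra hu
    unfold ph at h
    rw [indicator_of_notMem (show u ∉ Ioi (0 : ℝ) from hu)] at h
    exact absurd h (not_lt.2 zero_le)
  refine ⟨hu, ?_⟩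
  unfold ph at h
  rw [indicator_of_mem (show u ∈ Ioi (0 : ℝ) from hu)] at h
  have h1 := mul_le_mul_right h.le (ENNReal.ofReal (u ^ (d + 1)))
  unfold wt at h1
  rw [← mul_assoc (ENNReal.ofReal (u ^ (d + 1))) (ENNReal.ofReal (u ^ (d + 1))⁻¹),
    ← ENNReal.ofReal_mul (p := u ^ (d + 1)) (q := (u ^ (d + 1))⁻¹) (by positivity),
    mul_inv_cancel₀ (by positivity), ENNReal.ofReal_one,
    one_mul, ← ENNReal.ofReal_mul ht.le, ← ENNReal.ofReal_mul (by positivity)] at h1
  refine le_trans (le_of_eq ?_) h1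
  congr 1
  rw [div_pow]
  field_simp

lemma ball_two {g : (ι → ℝ) → ℝ≥0∞} (hg : Measurable g) (hLC : LC g) (d : ℕ) (x y : ι → ℝ)
    {p q : ℝ} (hp : 0 < p) (hq : 0 < q)
    (hP : ⨆ u, ph g d x u = ENNReal.ofReal (p ^ (d + 1))⁻¹)
    (hQ : ⨆ u, ph g d y u = ENNReal.ofReal (q ^ (d + 1))⁻¹) :
    ∃ I₁ I₂ : ℝ≥0∞, Ap g d x = ENNReal.ofReal (p ^ (d + 1))⁻¹ * I₁ ∧
      Ap g d y = ENNReal.ofReal (q ^ (d + 1))⁻¹ * I₂ ∧
      ENNReal.ofReal ((p + q) ^ (d + 1))⁻¹ * (I₁ + I₂) ≤ Ap g d (x + y) := by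
  set P := ENNReal.ofReal (p ^ (d + 1))⁻¹ with hPdef
  set Q := ENNReal.ofReal (q ^ (d + 1))⁻¹ with hQdef
  set m := ENNReal.ofReal ((p + q) ^ (d + 1))⁻¹ with hmdef
  have hP0 : P ≠ 0 := (ENNReal.ofReal_pos.2 (by positivity)).ne'
  have hQ0 : Q ≠ 0 := (ENNReal.ofReal_pos.2 (by positivity)).ne'
  have hm0 : m ≠ 0 := (ENNReal.ofReal_pos.2 (by positivity)).ne'
  have hPT : P ≠ ⊤ := ENNReal.ofReal_ne_top
  have hQT : Q ≠ ⊤ := ENNReal.ofReal_ne_top
  have hmT : m ≠ ⊤ := ENNReal.ofReal_ne_top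
  refine ⟨∫⁻ t in Ioo (0 : ℝ) 1, volume {u | ENNReal.ofReal t * P < ph g d x u},
    ∫⁻ t in Ioo (0 : ℝ) 1, volume {u | ENNReal.ofReal t * Q < ph g d y u}, ?_, ?_, ?_⟩
  · rw [Ap_eq]
    exact (layer (ph_meas hg d x) hP0 hPT fun u => hP ▸ le_iSup _ u).1
  · rw [Ap_eq]
    exact (layer (ph_meas hg d y) hQ0 hQT fun u => hQ ▸ le_iSup _ u).1
  · have hfm : Measurable fun u => min (ph g d (x + y) u) m :=
      (ph_meas hg d (x + y)).min measurable_const
    calc m * ((∫⁻ t in Ioo (0 : ℝ) 1, volume {u | ENNReal.ofReal t * P < ph g d x u}) +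
          ∫⁻ t in Ioo (0 : ℝ) 1, volume {u | ENNReal.ofReal t * Q < ph g d y u})
        ≤ m * ∫⁻ t in Ioo (0 : ℝ) 1, (volume {u | ENNReal.ofReal t * P < ph g d x u} +
            volume {u | ENNReal.ofReal t * Q < ph g d y u}) :=
          mul_le_mul_right (le_lintegral_add _ _) _
      _ ≤ m * ∫⁻ t in Ioo (0 : ℝ) 1, volume {u | ENNReal.ofReal t * m ≤
            min (ph g d (x + y) u) m} := by
          refine mul_le_mul_right (setLIntegral_mono' measurableSet_Ioo fun t ht => ?_) _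
          have ht1 : ENNReal.ofReal t < 1 := by
            rw [← ENNReal.ofReal_one]
            exact (ENNReal.ofReal_lt_ofReal_iff one_pos).2 ht.2
          have hbm := bm_meas (β := Bool) (fun _ => 1) (fun _ => one_pos)
            (fun b => if b then {u | ENNReal.ofReal t * P < ph g d x u}
              else {u | ENNReal.ofReal t * Q < ph g d y u})
            (by
              intro b
              cases b
              · exact measurableSet_lt measurable_const (ph_meas hg d y)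
              · exact measurableSet_lt measurable_const (ph_meas hg d x))
            (by
              intro b
              cases b
              · have : ENNReal.ofReal t * Q < ⨆ u, ph g d y u := by
                  rw [hQ]
                  calc ENNReal.ofReal t * Q < 1 * Q :=
                        (ENNReal.mul_lt_mul_iff_left hQ0 hQT).2 ht1
                    _ = Q := one_mul _
                obtain ⟨u, hu⟩ := lt_iSup_iff.1 this
                exact ⟨u, hu⟩
              · have : ENNReal.ofReal t * P < ⨆ u, ph g d x u := by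
                  rw [hP]
                  calc ENNReal.ofReal t * P < 1 * P :=
                        (ENNReal.mul_lt_mul_iff_left hP0 hPT).2 ht1
                    _ = P := one_mul _
                obtain ⟨u, hu⟩ := lt_iSup_iff.1 this
                exact ⟨u, hu⟩)
            (D := {u | ENNReal.ofReal t * m ≤ min (ph g d (x + y) u) m})
            (by
              intro s hs
              have h1 := ph_lower hp ht.1 (hs true)
              have h2 := ph_lower hq ht.1 (hs false)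
              have hsum : ∑ j, (fun _ : Bool => (1 : ℝ)) j * s j = s true + s false := by
                simp
              rw [hsum]
              set u := s true
              set v := s false
              obtain ⟨hu, hgu⟩ := h1
              obtain ⟨hv, hgv⟩ := h2
              have huv : 0 < u + v := add_pos hu hv
              change ENNReal.ofReal t * m ≤ min (ph g d (x + y) (u + v)) m
              refine le_min ?_ ?_
              · unfold ph
                rw [indicator_of_mem (show u + v ∈ Ioi (0 : ℝ) from huv)]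
                have h3 := hLC (u⁻¹ • x) (v⁻¹ • y) (u / (u + v)) (v / (u + v)) (by positivity)
                  (by positivity) (by field_simp)
                have h4 : (u / (u + v)) • (u⁻¹ • x) + (v / (u + v)) • (v⁻¹ • y) =
                    (u + v)⁻¹ • (x + y) := by
                  rw [smul_smul, smul_smul, smul_add]
                  congr 2 <;> field_simp
                rw [h4] at h3
                have h5 : ENNReal.ofReal (t * ((u + v) / (p + q)) ^ (d + 1)) ≤
                    g ((u + v)⁻¹ • (x + y)) := by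
                  refine le_trans ?_ h3
                  refine le_trans (ENNReal.ofReal_le_ofReal
                    (real_ineq (d + 1) hu hv hp hq ht.1)) ?_
                  have ht0 := ht.1
                  rw [ENNReal.ofReal_mul (by positivity),
                    ← ENNReal.ofReal_rpow_of_nonneg (by positivity) (by positivity),
                    ← ENNReal.ofReal_rpow_of_nonneg (by positivity) (by positivity)]
                  exact mul_le_mul' (ENNReal.rpow_le_rpow hgu (by positivity))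
                    (ENNReal.rpow_le_rpow hgv (by positivity))
                refine le_trans (le_of_eq ?_) (mul_le_mul_right h5 (wt d (u + v)))
                have ht0 := ht.1
                unfold wt
                rw [hmdef, ← ENNReal.ofReal_mul ht.1.le, ← ENNReal.ofReal_mul (by positivity)]
                congr 1
                rw [div_pow]
                field_simp
              · calc ENNReal.ofReal t * m ≤ 1 * m := mul_le_mul_left ht1.le _
                  _ = m := one_mul _)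
          simpa [add_comm] using hbm
      _ = ∫⁻ u, min (ph g d (x + y) u) m := (layer hfm hm0 hmT fun u => min_le_right _ _).2.symm
      _ ≤ ∫⁻ u, ph g d (x + y) u := lintegral_mono fun u => min_le_left _ _
      _ = Ap g d (x + y) := (Ap_eq g d (x + y)).symm

lemma ph_sup_lt {g : (ι → ℝ) → ℝ≥0∞} (hg1 : ∀ x, g x ≤ 1) {R : ℝ}
    (hR : ∀ x, g x ≠ 0 → ∀ i, |x i| ≤ R) (p : ℕ) {x : ι → ℝ} (hx : x ≠ 0) :
    ⨆ u, ph g p x u < ⊤ := by
  obtain ⟨i, hi⟩ : ∃ i, x i ≠ 0 := by
    by_contra h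
    push Not at h
    exact hx (funext h)
  have hxi : 0 < |x i| := abs_pos.2 hi
  set b := |x i| / (|R| + 1) with hb
  have hb0 : 0 < b := by positivity
  refine lt_of_le_of_lt (iSup_le fun u => ?_) (ENNReal.ofReal_lt_top (r := (b ^ (p + 1))⁻¹))
  unfold ph
  by_cases hu : 0 < u
  · rw [indicator_of_mem (show u ∈ Ioi (0 : ℝ) from hu)]
    by_cases hub : b < u
    · calc wt p u * g (u⁻¹ • x) ≤ wt p u * 1 := mul_le_mul_right (hg1 _) _
        _ = wt p u := mul_one _
        _ ≤ _ := by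
          unfold wt
          exact ENNReal.ofReal_le_ofReal (inv_anti₀ (by positivity)
            (pow_le_pow_left₀ hb0.le hub.le _))
    · have : g (u⁻¹ • x) = 0 := by
        by_contra h
        have h2 := hR _ h i
        rw [Pi.smul_apply, smul_eq_mul, abs_mul, abs_of_pos (inv_pos.2 hu)] at h2
        have h3 : u ≤ b := not_lt.1 hub
        rw [hb, le_div_iff₀ (by positivity)] at h3
        have h4 : |R| + 1 ≤ u⁻¹ * |x i| := by
          rw [← div_eq_inv_mul, le_div_iff₀ hu]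
          linarith
        have := le_abs_self R
        linarith
      rw [this, mul_zero]
      exact zero_le
  · rw [indicator_of_notMem (show u ∉ Ioi (0 : ℝ) from hu)]
    exact zero_le

lemma sup_repr {P : ℝ≥0∞} (h0 : P ≠ 0) (hT : P ≠ ⊤) (n : ℕ) :
    ∃ p : ℝ, 0 < p ∧ P = ENNReal.ofReal (p ^ (n + 1))⁻¹ := by
  have hr : 0 < P.toReal := ENNReal.toReal_pos h0 hT
  refine ⟨P.toReal ^ (-(1 / ((n + 1 : ℕ) : ℝ))), by positivity, ?_⟩
  rw [← Real.rpow_natCast, ← Real.rpow_mul hr.le]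
  have : -(1 / ((n + 1 : ℕ) : ℝ)) * ((n + 1 : ℕ) : ℝ) = -1 := by
    have : ((n + 1 : ℕ) : ℝ) ≠ 0 := by positivity
    field_simp
  rw [this, Real.rpow_neg_one, inv_inv, ENNReal.ofReal_toReal hT]

lemma dAp_repr {g : (ι → ℝ) → ℝ≥0∞} {d : ℕ} (hd : 0 < d) {x : ι → ℝ} (h0 : Ap g d x ≠ 0)
    (hT : Ap g d x ≠ ⊤) :
    ∃ a : ℝ, 0 < a ∧ Np g d x = ENNReal.ofReal a ∧
      (d : ℝ≥0∞) * Ap g d x = ENNReal.ofReal (a ^ d)⁻¹ := by
  have hN0 : Np g d x ≠ 0 := fun h => hT ((Np_zero_iff hd x).1 h)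
  have hNT : Np g d x ≠ ⊤ := fun h => h0 ((Np_top_iff hd x).1 h)
  have ha : 0 < (Np g d x).toReal := ENNReal.toReal_pos hN0 hNT
  refine ⟨(Np g d x).toReal, ha, (ENNReal.ofReal_toReal hNT).symm, ?_⟩
  have h1 := Np_pow (g := g) hd x
  rw [ENNReal.ofReal_inv_of_pos (by positivity), ENNReal.ofReal_pow ha.le,
    ENNReal.ofReal_toReal hNT, h1, inv_inv]

/-- Ball's theorem: the gauge is subadditive -/
lemma Np_add {g : (ι → ℝ) → ℝ≥0∞} (hg : Measurable g) (hg1 : ∀ x, g x ≤ 1) {R : ℝ}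
    (hR : ∀ x, g x ≠ 0 → ∀ i, |x i| ≤ R) (hLC : LC g) {d : ℕ} (hd : 0 < d) (x y : ι → ℝ) :
    Np g d (x + y) ≤ Np g d x + Np g d y := by
  by_cases hx : x = 0
  · rw [hx, zero_add]; exact le_add_self
  by_cases hy : y = 0
  · rw [hy, add_zero]; exact le_self_add
  by_cases hx0 : Ap g d x = 0
  · rw [(Np_top_iff hd x).2 hx0, top_add]; exact le_top
  by_cases hy0 : Ap g d y = 0
  · rw [(Np_top_iff hd y).2 hy0, add_top]; exact le_top
  have hAx : Ap g d x ≠ ⊤ := (Ap_lt_top hg1 hR hd hx).ne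
  have hAy : Ap g d y ≠ ⊤ := (Ap_lt_top hg1 hR hd hy).ne
  have hsup0 : ∀ z, Ap g d z ≠ 0 → ⨆ u, ph g d z u ≠ 0 := by
    intro z hz h
    apply hz
    rw [Ap_eq]
    have : ∀ u, ph g d z u = 0 := fun u => le_antisymm ((le_iSup _ u).trans h.le) zero_le
    simp [this]
  obtain ⟨p, hp, hP⟩ := sup_repr (hsup0 x hx0) (ph_sup_lt hg1 hR d hx).ne d
  obtain ⟨q, hq, hQ⟩ := sup_repr (hsup0 y hy0) (ph_sup_lt hg1 hR d hy).ne d
  obtain ⟨I₁, I₂, h1, h2, h3⟩ := ball_two hg hLC d x y hp hq hP hQ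
  obtain ⟨a, ha, hNa, hAa⟩ := dAp_repr hd hx0 hAx
  obtain ⟨b, hb, hNb, hAb⟩ := dAp_repr hd hy0 hAy
  have e0 : ∀ (r c : ℝ) (I A : ℝ≥0∞), 0 < r → 0 < c → A = ENNReal.ofReal (r ^ (d + 1))⁻¹ * I →
      (d : ℝ≥0∞) * A = ENNReal.ofReal (c ^ d)⁻¹ →
      (d : ℝ≥0∞) * I = ENNReal.ofReal (r ^ (d + 1) / c ^ d) := by
    intro r c I A hr hc hA1 hA2
    have e4 : ENNReal.ofReal (r ^ (d + 1)) * ENNReal.ofReal (r ^ (d + 1))⁻¹ = 1 := by
      rw [← ENNReal.ofReal_mul (by positivity), mul_inv_cancel₀ (by positivity),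
        ENNReal.ofReal_one]
    have e5 : ENNReal.ofReal (r ^ (d + 1)) * ((d : ℝ≥0∞) * A) = (d : ℝ≥0∞) * I := by
      rw [hA1]
      calc ENNReal.ofReal (r ^ (d + 1)) * ((d : ℝ≥0∞) * (ENNReal.ofReal (r ^ (d + 1))⁻¹ * I))
          = (ENNReal.ofReal (r ^ (d + 1)) * ENNReal.ofReal (r ^ (d + 1))⁻¹) *
            ((d : ℝ≥0∞) * I) := by ring
        _ = _ := by rw [e4, one_mul]
    rw [← e5, hA2, ← ENNReal.ofReal_mul (by positivity)]
    rfl
  have e1 := e0 p a I₁ _ hp ha h1 hAa
  have e2 := e0 q b I₂ _ hq hb h2 hAb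
  have h4 : ENNReal.ofReal ((a + b) ^ d)⁻¹ ≤ (d : ℝ≥0∞) * Ap g d (x + y) := by
    calc ENNReal.ofReal ((a + b) ^ d)⁻¹
        ≤ ENNReal.ofReal (((p + q) ^ (d + 1))⁻¹ * (p ^ (d + 1) / a ^ d + q ^ (d + 1) / b ^ d)) := by
          apply ENNReal.ofReal_le_ofReal
          have h5 := radon d hp hq ha hb
          rw [← div_eq_inv_mul, le_div_iff₀ (by positivity), ← div_eq_inv_mul]
          exact h5
      _ = ENNReal.ofReal ((p + q) ^ (d + 1))⁻¹ * ((d : ℝ≥0∞) * I₁ + (d : ℝ≥0∞) * I₂) := by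
          rw [ENNReal.ofReal_mul (by positivity),
            ENNReal.ofReal_add (by positivity) (by positivity), e1, e2]
      _ = (d : ℝ≥0∞) * (ENNReal.ofReal ((p + q) ^ (d + 1))⁻¹ * (I₁ + I₂)) := by ring
      _ ≤ _ := mul_le_mul_right h3 _
  have e3 : ENNReal.ofReal (a + b) = (ENNReal.ofReal ((a + b) ^ d)⁻¹) ^ (-(1 / d) : ℝ) := by
    have hab : 0 < a + b := by positivity
    have hk' : (d : ℝ) ≠ 0 := by positivity
    rw [ENNReal.ofReal_rpow_of_pos (by positivity)]
    congr 1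
    rw [← Real.rpow_natCast, ← Real.rpow_neg hab.le, ← Real.rpow_mul hab.le]
    have : -(d : ℝ) * -(1 / (d : ℝ)) = 1 := by field_simp
    rw [this, Real.rpow_one]
  rw [hNa, hNb, ← ENNReal.ofReal_add ha.le hb.le, e3]
  unfold Np
  exact rpow_anti h4 (by positivity)

lemma Np_sum {g : (ι → ℝ) → ℝ≥0∞} (hg : Measurable g) (hg1 : ∀ x, g x ≤ 1) {R : ℝ}
    (hR : ∀ x, g x ≠ 0 → ∀ i, |x i| ≤ R) (hLC : LC g) {d : ℕ} (hd : 0 < d) {β : Type*}
    (J : Finset β) (hJ : J.Nonempty) (c : β → ℝ) (hc : ∀ j, 0 < c j) (x : β → ι → ℝ) :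
    Np g d (∑ j ∈ J, c j • x j) ≤ ∑ j ∈ J, ENNReal.ofReal (c j) * Np g d (x j) := by
  refine (Finset.le_sum_nonempty_of_subadditive (Np g d) (Np_add hg hg1 hR hLC hd) hJ _).trans ?_
  apply Finset.sum_le_sum
  intro j _
  rw [Np_smul hg hd (hc j)]

end Pool.Agent.Q156.SX
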