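import Pool.Agent.Q156.SX.F

set_option autoImplicit false

open MeasureTheory Set Filter Topology
open scoped ENNReal Pointwise Classical

namespace Pool.Agent.Q156.SX

lemma mi_Icc_lt (b : Prop) (R : ℝ) : mi b (Icc (-R) R) < ⊤ := by
  unfold mi
  split_ifs
  · rw [Real.volume_Icc]; exact ENNReal.ofReal_lt_top
  · exact measure_lt_top _ _

lemma lintegral_g_lt {ι : Type*} [Fintype ι] {g : (ι → ℝ) → ℝ≥0∞} (hg1 : ∀ x, g x ≤ 1) {R : ℝ}
    (hR : ∀ x, g x ≠ 0 → ∀ i, |x i| ≤ R) (T : ι → Prop) : ∫⁻ x, g x ∂(mu T) < ⊤ := by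
  have hm : MeasurableSet (univ.pi fun _ : ι => Icc (-R) R) :=
    MeasurableSet.univ_pi fun _ => measurableSet_Icc
  calc ∫⁻ x, g x ∂(mu T) ≤ ∫⁻ x, (univ.pi fun _ : ι => Icc (-R) R).indicator 1 x ∂(mu T) := by
        apply lintegral_mono
        intro x
        by_cases hx : g x = 0
        · rw [hx]; exact zero_le
        · have : x ∈ univ.pi fun _ : ι => Icc (-R) R := fun i _ => abs_le.1 (hR x hx i)
          rw [indicator_of_mem this]
          exact hg1 x
    _ = mu T (univ.pi fun _ : ι => Icc (-R) R) := lintegral_indicator_one hm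
    _ < ⊤ := by
      unfold mu
      rw [Measure.pi_pi]
      exact ENNReal.prod_lt_top fun i _ => mi_Icc_lt _ _

theorem dual_BT {β ι : Type*} [Fintype β] [Nonempty β] [Fintype ι] [Nonempty ι] (k : ℕ)
    (hk : 0 < k) (T : β → ι → Prop) (hT : ∀ i, (Finset.univ.filter fun j => T j i).card = k)
    (hT' : ∀ j, 0 < dm (T j))
    {g : (ι → ℝ) → ℝ≥0∞} (hg : Measurable g) (hg1 : ∀ x, g x ≤ 1) {R : ℝ}
    (hR : ∀ x, g x ≠ 0 → ∀ i, |x i| ≤ R) (hLC : LC g) :
    ∏ j, (((dm (T j)).factorial : ℝ≥0∞) * ∫⁻ x, g x ∂(mu (T j))) ≤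
      (((Fintype.card ι).factorial : ℝ≥0∞) * ∫⁻ x, g x) ^ k := by
  have hk' : (0 : ℝ) < k := by exact_mod_cast hk
  set d := Fintype.card ι with hd
  have hd0 : 0 < d := Fintype.card_pos
  have hdm : dm (fun _ : ι => True) = d := by
    unfold dm
    simp [hd]
  set c : β → ℝ := fun _ => 1 / (k : ℝ) with hc
  have hc0 : ∀ j, 0 < c j := fun j => by rw [hc]; positivity
  set f : ℕ → β → (ι → ℝ) → ℝ≥0∞ := fun r j =>
    (univ.pi fun _ : ι => Icc (-(r : ℝ)) r).indicator fun x => psi (Np g (dm (T j)) x) with hf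
  have hbox : ∀ r : ℕ, MeasurableSet (univ.pi fun _ : ι => Icc (-(r : ℝ)) r) := fun r =>
    MeasurableSet.univ_pi fun _ => measurableSet_Icc
  have hpm : ∀ j, Measurable fun x => psi (Np g (dm (T j)) x) := fun j =>
    psi_meas.comp (Np_meas hg _)
  have hfm : ∀ r j, Measurable (f r j) := fun r j => (hpm j).indicator (hbox r)
  have hfle : ∀ r j x, f r j x ≤ psi (Np g (dm (T j)) x) := fun r j x =>
    indicator_le_self _ _ _
  have hI : ∫⁻ x, psi (Np g d x) = (d.factorial : ℝ≥0∞) * ∫⁻ x, g x := by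
    have := key_I hg hg1 hR (fun _ : ι => True) (by rw [hdm]; exact hd0)
    rw [hdm, mu_true] at this
    exact this
  have step : ∀ r : ℕ, ∏ j, (∫⁻ x, f r j x ∂(mu (T j))) ^ c j ≤
      (d.factorial : ℝ≥0∞) * ∫⁻ x, g x := by
    intro r
    rw [← hI]
    refine rbl' c hc0 r T ?_ (f r) (hfm r) 1 ENNReal.one_ne_top ?_ ?_ (fun x => psi (Np g d x))
      (psi_meas.comp (Np_meas hg _)) ?_
    · intro i
      rw [← Finset.sum_filter, Finset.sum_const, hT i, nsmul_eq_mul]
      field_simp
    · intro j x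
      exact (hfle r j x).trans (psi_le_one _)
    · intro j x hx i
      have : x ∈ univ.pi fun _ : ι => Icc (-(r : ℝ)) r := by
        by_contra h
        exact hx (indicator_of_notMem h _)
      exact abs_le.2 (this i (mem_univ i))
    · intro x _
      have e1 : (fun i => ∑ j, c j * x j i) = ∑ j, c j • x j := by
        funext i
        rw [Finset.sum_apply]
        rfl
      rw [e1]
      calc ∏ j, f r j (x j) ^ c j ≤ ∏ j, psi (Np g (dm (T j)) (x j)) ^ c j :=
            Finset.prod_le_prod' fun j _ => ENNReal.rpow_le_rpow (hfle r j (x j)) (hc0 j).le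
        _ = psi (∑ j, ENNReal.ofReal (c j) * Np g (dm (T j)) (x j)) :=
            (psi_sum Finset.univ c hc0 _).symm
        _ ≤ psi (Np g d (∑ j, c j • x j)) := by
            apply psi_anti
            refine (Np_sum hg hg1 hR hLC hd0 Finset.univ Finset.univ_nonempty c hc0 x).trans ?_
            apply Finset.sum_le_sum
            intro j _
            refine mul_le_mul_right (bath hg hg1 (hT' j) ?_ (x j)) _
            unfold dm
            exact Finset.card_le_univ _
  have hJ : ∀ j, ∫⁻ x, psi (Np g (dm (T j)) x) ∂(mu (T j)) =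
      ((dm (T j)).factorial : ℝ≥0∞) * ∫⁻ x, g x ∂(mu (T j)) := fun j =>
    key_I hg hg1 hR (T j) (hT' j)
  have hJT : ∀ j, ((dm (T j)).factorial : ℝ≥0∞) * ∫⁻ x, g x ∂(mu (T j)) ≠ ⊤ := fun j =>
    ENNReal.mul_ne_top (ENNReal.natCast_ne_top _) (lintegral_g_lt hg1 hR _).ne
  have hlim : ∀ j, Tendsto (fun r => ∫⁻ x, f r j x ∂(mu (T j))) atTop
      (𝓝 (((dm (T j)).factorial : ℝ≥0∞) * ∫⁻ x, g x ∂(mu (T j)))) := by
    intro j
    rw [← hJ j]
    apply lintegral_tendsto_of_tendsto_of_monotone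
    · exact fun r => (hfm r j).aemeasurable
    · refine Eventually.of_forall fun x => ?_
      intro r s hrs
      have : (univ.pi fun _ : ι => Icc (-(r : ℝ)) r) ⊆ (univ.pi fun _ : ι => Icc (-(s : ℝ)) s) := by
        apply Set.pi_mono
        intro i _
        have : (r : ℝ) ≤ s := by exact_mod_cast hrs
        exact Icc_subset_Icc (neg_le_neg this) this
      exact indicator_le_indicator_of_subset this (fun _ => zero_le) x
    · refine Eventually.of_forall fun x => ?_
      apply tendsto_const_nhds.congr'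
      obtain ⟨N, hN⟩ := exists_nat_ge (∑ i, |x i|)
      filter_upwards [eventually_ge_atTop N] with r hr
      have : x ∈ univ.pi fun _ : ι => Icc (-(r : ℝ)) r := by
        intro i _
        refine abs_le.1 ?_
        have h1 : |x i| ≤ ∑ i, |x i| :=
          Finset.single_le_sum (f := fun i => |x i|) (fun i _ => abs_nonneg _) (Finset.mem_univ i)
        have h2 : (N : ℝ) ≤ r := by exact_mod_cast hr
        linarith
      exact (indicator_of_mem this (fun x => psi (Np g (dm (T j)) x))).symm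
  have hprod : ∏ j, (((dm (T j)).factorial : ℝ≥0∞) * ∫⁻ x, g x ∂(mu (T j))) ^ c j ≤
      (d.factorial : ℝ≥0∞) * ∫⁻ x, g x := by
    refine le_of_tendsto' (ENNReal.tendsto_finsetProd_of_ne_top Finset.univ
      (fun j _ => (ENNReal.continuous_rpow_const.tendsto _).comp (hlim j))
      (fun j _ => ENNReal.rpow_ne_top_of_nonneg (hc0 j).le (hJT j))) ?_
    intro r
    exact step r
  have h1 := pow_le_pow_left' hprod k
  rw [← Finset.prod_pow] at h1
  refine le_trans (le_of_eq ?_) h1
  apply Finset.prod_congr rfl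
  intro j _
  rw [← ENNReal.rpow_natCast, ← ENNReal.rpow_mul, hc]
  have : 1 / (k : ℝ) * (k : ℝ) = 1 := by field_simp
  rw [this, ENNReal.rpow_one]

end Pool.Agent.Q156.SX
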