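import Pool.Agent.Q156.SX.G

set_option autoImplicit false

open MeasureTheory Set Filter Topology
open scoped ENNReal Pointwise Classical

namespace Pool.Agent.Q156.SX

variable {n : ℕ}

/-- the point with coordinates `x` on `S` and `y` off `S` -/
def glue (S : Finset (Fin n)) (x : {i // i ∈ S} → ℝ) (y : {i // i ∉ S} → ℝ) : Fin n → ℝ :=
  fun i => if h : i ∈ S then x ⟨i, h⟩ else y ⟨i, h⟩

/-- section function -/
noncomputable def sec (K : Set (Fin n → ℝ)) (S : Finset (Fin n)) (x : {i // i ∈ S} → ℝ) : ℝ≥0∞ :=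
  volume {y : {i // i ∉ S} → ℝ | glue S x y ∈ K}

lemma glue_meas (S : Finset (Fin n)) :
    Measurable fun z : ({i // i ∈ S} → ℝ) × ({i // i ∉ S} → ℝ) => glue S z.1 z.2 := by
  rw [measurable_pi_iff]
  intro i
  unfold glue
  by_cases h : i ∈ S
  · simp only [h, dif_pos]; fun_prop
  · simp only [h, not_false_eq_true, dif_neg]; fun_prop

lemma sec_meas {K : Set (Fin n → ℝ)} (hK : MeasurableSet K) (S : Finset (Fin n)) :
    Measurable (sec K S) :=
  measurable_measure_prodMk_left (glue_meas S hK)

lemma pi_inst {ι : Type*} (i1 i2 : Fintype ι) (μ : ι → Measure ℝ) :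
    @Measure.pi ι (fun _ => ℝ) i1 _ μ = @Measure.pi ι (fun _ => ℝ) i2 _ μ := by
  have h : i1 = i2 := Subsingleton.elim _ _
  subst h
  rfl

lemma mu_glue {K : Set (Fin n → ℝ)} (hK : MeasurableSet K) (S : Finset (Fin n))
    (T : Fin n → Prop) (hT : ∀ i, i ∉ S → T i) :
    mu T K = ∫⁻ x, sec K S x ∂(mu fun i : {i // i ∈ S} => T i) := by
  have h := measurePreserving_piEquivPiSubtypeProd (fun i => mi (T i)) (fun i => i ∈ S)
  have h1 := (h.symm _).measure_preimage hK.nullMeasurableSet
  have h2 : (Measure.pi fun i : {i // i ∉ S} => mi (T i)) = volume := by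
    have h3 : (fun i : {i // i ∉ S} => T i) = fun _ => True := by
      funext i
      exact eq_true (hT i i.2)
    have h4 : (mu fun i : {i // i ∉ S} => T i) = volume := by rw [h3, mu_true]
    exact h4
  have h5 : mu T K = Measure.pi (fun i => mi (T i)) K := rfl
  rw [h5, ← h1, Measure.prod_apply ((MeasurableEquiv.measurable _) hK)]
  refine (lintegral_congr (g := sec K S) fun x => ?_).trans ?_
  · unfold sec
    rw [← h2]
    rfl
  · have h6 := pi_inst (ι := {i // i ∈ S}) (Subtype.fintype fun i => i ∈ S)
      (Finset.Subtype.fintype S) (fun i => mi (T i))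
    have h7 : (@Measure.pi {i // i ∈ S} (fun _ => ℝ) (Subtype.fintype fun i => i ∈ S) _
      fun i => mi (T i)) = mu fun i : {i // i ∈ S} => T i := h6
    exact congrArg (fun ν => ∫⁻ x, sec K S x ∂ν) h7

lemma mu_false {ι : Type*} [Fintype ι] : (mu fun _ : ι => False) = Measure.dirac 0 := by
  unfold mu
  apply Measure.pi_eq
  intro s hs
  have h1 : ∀ i, mi False (s i) = if (0 : ℝ) ∈ s i then 1 else 0 := by
    intro i
    unfold mi
    rw [if_neg (not_false), Measure.dirac_apply' _ (hs i)]
    rfl
  simp_rw [h1]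
  rw [Measure.dirac_apply' _ (MeasurableSet.univ_pi hs), Finset.prod_ite_zero]
  simp only [Finset.mem_univ, true_implies, Finset.prod_const_one, indicator, Set.mem_pi,
    Pi.one_apply, Set.mem_univ, true_implies, Pi.zero_apply]

lemma sec_zero {K : Set (Fin n → ℝ)} (hK : MeasurableSet K) (S : Finset (Fin n)) :
    sec K S 0 = mu (fun i => i ∉ S) K := by
  rw [mu_glue hK S (fun i => i ∉ S) (fun i hi => hi)]
  have : (fun i : {i // i ∈ S} => (i : Fin n) ∉ S) = fun _ => False := by
    funext i
    exact eq_false (not_not.2 i.2)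
  rw [this, mu_false, lintegral_dirac' _ (sec_meas hK S)]

lemma exists_R {K : Set (Fin n → ℝ)} (hK : IsCompact K) : ∃ R : ℝ, ∀ z ∈ K, ∀ i, |z i| ≤ R := by
  obtain ⟨R, hR⟩ := hK.isBounded.subset_closedBall 0
  refine ⟨R, fun z hz i => ?_⟩
  have h1 := hR hz
  rw [mem_closedBall_zero_iff] at h1
  exact (norm_le_pi_norm z i).trans h1

lemma glue_comb (S : Finset (Fin n)) (x x' : {i // i ∈ S} → ℝ) (y y' : {i // i ∉ S} → ℝ)
    (a b : ℝ) : glue S (a • x + b • x') (a • y + b • y') = a • glue S x y + b • glue S x' y' := by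
  funext i
  unfold glue
  by_cases h : i ∈ S
  · simp only [h, dif_pos, Pi.add_apply, Pi.smul_apply]
  · simp only [h, dif_neg, Pi.add_apply, Pi.smul_apply, not_false_eq_true]

lemma sec_LC {K : Set (Fin n → ℝ)} (hK : IsCompact K) (hKc : Convex ℝ K) (S : Finset (Fin n)) :
    LC (sec K S) := by
  intro x x' a b ha hb hab
  obtain ⟨R, hR⟩ := exists_R hK
  have hm : ∀ w : {i // i ∈ S} → ℝ, MeasurableSet {y : {i // i ∉ S} → ℝ | glue S w y ∈ K} :=
    fun w => (glue_meas S).comp measurable_prodMk_left hK.measurableSet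
  set X : Bool → ({i // i ∈ S} → ℝ) := fun t => if t then x else x' with hX
  have h := rbl' (β := Bool) (ι := {i // i ∉ S}) (fun t => if t then a else b)
    (by intro t; cases t <;> simp [ha, hb]) R (fun _ _ => True)
    (by intro i; simp [hab])
    (fun t => {y : {i // i ∉ S} → ℝ | glue S (X t) y ∈ K}.indicator 1)
    (fun t => measurable_one.indicator (hm _)) 1 ENNReal.one_ne_top
    (by
      intro t y
      refine indicator_le_self' ?_ _ |>.trans ?_
      · intro _ _; exact zero_le
      · exact le_rfl)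
    (by
      intro t y hy i
      have h1 : y ∈ {y : {i // i ∉ S} → ℝ | glue S (X t) y ∈ K} := by
        by_contra h
        exact hy (indicator_of_notMem h _)
      have h2 := hR _ h1 i
      unfold glue at h2
      rwa [dif_neg i.2] at h2)
    ({y : {i // i ∉ S} → ℝ | glue S (a • x + b • x') y ∈ K}.indicator 1)
    (measurable_one.indicator (hm _))
    (by
      intro y _
      rw [Fintype.prod_bool]
      by_cases h1 : glue S (X true) (y true) ∈ K
      · by_cases h2 : glue S (X false) (y false) ∈ K
        · have h3 : (fun i => ∑ j : Bool, (if j then a else b) * y j i) =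
              a • y true + b • y false := by
            funext i
            rw [Fintype.sum_bool]
            rfl
          rw [h3]
          have h4 : a • y true + b • y false ∈
              {y : {i // i ∉ S} → ℝ | glue S (a • x + b • x') y ∈ K} := by
            change glue S (a • x + b • x') (a • y true + b • y false) ∈ K
            rw [glue_comb]
            exact hKc h1 h2 ha.le hb.le hab
          rw [indicator_of_mem h4, indicator_of_mem (show y true ∈
            {y : {i // i ∉ S} → ℝ | glue S (X true) y ∈ K} from h1), indicator_of_mem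
            (show y false ∈ {y : {i // i ∉ S} → ℝ | glue S (X false) y ∈ K} from h2)]
          simp
        · rw [indicator_of_notMem (show y false ∉
            {y : {i // i ∉ S} → ℝ | glue S (X false) y ∈ K} from h2)]
          simp [hb]
      · rw [indicator_of_notMem (show y true ∉
            {y : {i // i ∉ S} → ℝ | glue S (X true) y ∈ K} from h1)]
        simp [ha])
  rw [Fintype.prod_bool, mu_true, lintegral_indicator_one (hm _), lintegral_indicator_one (hm _),
    lintegral_indicator_one (hm _)] at h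
  exact h

lemma sec_lt {K : Set (Fin n → ℝ)} {R : ℝ} (hR : ∀ z ∈ K, ∀ i, |z i| ≤ R) (S : Finset (Fin n))
    (x : {i // i ∈ S} → ℝ) :
    sec K S x ≤ volume (univ.pi fun _ : {i // i ∉ S} => Icc (-R) R) := by
  unfold sec
  apply measure_mono
  intro y hy i _
  have h2 := hR _ hy i
  unfold glue at h2
  rw [dif_neg i.2] at h2
  exact abs_le.1 h2

lemma box_lt {κ : Type*} [Fintype κ] (R : ℝ) :
    volume (univ.pi fun _ : κ => Icc (-R) R) < ⊤ := by
  rw [volume_pi_pi]
  exact ENNReal.prod_lt_top fun i _ => by rw [Real.volume_Icc]; exact ENNReal.ofReal_lt_top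

lemma sec_supp {K : Set (Fin n → ℝ)} {R : ℝ} (hR : ∀ z ∈ K, ∀ i, |z i| ≤ R) (S : Finset (Fin n))
    (x : {i // i ∈ S} → ℝ) (hx : sec K S x ≠ 0) (i : {i // i ∈ S}) : |x i| ≤ R := by
  unfold sec at hx
  obtain ⟨y, hy⟩ := nonempty_of_measure_ne_zero hx
  have h2 := hR _ hy i
  unfold glue at h2
  rwa [dif_pos i.2] at h2

end Pool.Agent.Q156.SX
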