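import Pool.Agent.Q156.SX.H

set_option autoImplicit false

open MeasureTheory Set Filter Topology
open scoped ENNReal Pointwise Classical

namespace Pool.Agent.Q156.SX

variable {n : ℕ}

theorem main_ennreal {K : Set (Fin n → ℝ)} (hK : IsCompact K) (hKc : Convex ℝ K)
    (hKi : (interior K).Nonempty) (σ : Finset (Fin n)) (hσ : σ.Nonempty) {m s : ℕ}
    (S : Fin m → Finset (Fin n)) (hS : ∀ j, S j ⊆ σ)
    (hcov : ∀ i ∈ σ, (Finset.univ.filter fun j => i ∈ S j).card = s) (M : ℝ≥0∞)
    (hM : M = ⨆ x, sec K σ x) :
    ∏ j, (((σ.card - (S j).card).factorial : ℝ≥0∞) * sec K (S j) 0) ≤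
      ((σ.card.factorial : ℝ≥0∞) * volume K) ^ (m - s) * M ^ s := by
  obtain ⟨R, hR⟩ := exists_R hK
  have hKm := hK.measurableSet
  have hGm := sec_meas hKm σ
  have hvol : ∫⁻ x, sec K σ x = volume K := by
    have := mu_glue hKm σ (fun _ => True) (fun _ _ => trivial)
    rw [mu_true, mu_true] at this
    exact this.symm
  have hle : ∀ x, sec K σ x ≤ M := fun x => hM ▸ le_iSup _ x
  have hMT : M ≠ ⊤ := by
    rw [hM]
    exact ((iSup_le (sec_lt hR σ)).trans_lt (box_lt R)).ne
  have hM0 : M ≠ 0 := by
    intro h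
    have h1 : ∀ x, sec K σ x = 0 := fun x => le_antisymm ((hle x).trans h.le) zero_le
    have h2 : volume K = 0 := by rw [← hvol]; simp [h1]
    have h3 := isOpen_interior.measure_pos volume hKi
    exact (lt_of_lt_of_le h3 (measure_mono interior_subset)).ne' h2
  have hMM : M * M⁻¹ = 1 := ENNReal.mul_inv_cancel hM0 hMT
  have hnot : ∀ i ∈ σ, (Finset.univ.filter fun j => i ∉ S j).card = m - s := by
    intro i hi
    rw [Finset.filter_not, Finset.card_sdiff_of_subset (Finset.filter_subset _ _), hcov i hi,
      Finset.card_univ, Fintype.card_fin]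
  have hsm : s ≤ m := by
    obtain ⟨i, hi⟩ := hσ
    rw [← hcov i hi]
    exact (Finset.card_le_univ _).trans (by simp)
  set k := m - s with hk
  set F : Fin m → ℝ≥0∞ := fun j => ((σ.card - (S j).card).factorial : ℝ≥0∞) * sec K (S j) 0
    with hF
  have hfull : ∀ j, S j = σ → F j * M⁻¹ ≤ 1 := by
    intro j hj
    have : F j ≤ M := by
      rw [hF]
      simp only
      rw [hj, Nat.sub_self, Nat.factorial_zero, Nat.cast_one, one_mul]
      exact hle 0
    rw [← hMM]
    exact mul_le_mul_left this _
  have key : ∏ j, (F j * M⁻¹) ≤ ((σ.card.factorial : ℝ≥0∞) * (volume K * M⁻¹)) ^ k := by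
    have hred : ∏ j, (F j * M⁻¹) ≤ ∏ j : {j // S j ≠ σ}, (F j * M⁻¹) := by
      rw [← Finset.prod_filter_mul_prod_filter_not Finset.univ (fun j => S j ≠ σ)]
      calc (∏ j ∈ Finset.univ.filter (fun j => S j ≠ σ), (F j * M⁻¹)) *
            ∏ j ∈ Finset.univ.filter (fun j => ¬ S j ≠ σ), (F j * M⁻¹)
          ≤ (∏ j ∈ Finset.univ.filter (fun j => S j ≠ σ), (F j * M⁻¹)) * 1 := by
            refine mul_le_mul_right (Finset.prod_le_one' fun j hj => ?_) _
            exact hfull j (not_not.1 (Finset.mem_filter.1 hj).2)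
        _ = ∏ j : {j // S j ≠ σ}, (F j * M⁻¹) := by
            rw [mul_one]
            exact Finset.prod_subtype _ (fun j => by simp) _
    refine hred.trans ?_
    rcases Nat.eq_zero_or_pos k with hk0 | hk0
    · have hempty : IsEmpty {j // S j ≠ σ} := by
        constructor
        rintro ⟨j, hj⟩
        apply hj
        apply Finset.Subset.antisymm (hS j)
        intro i hi
        by_contra hij
        have h1 := hnot i hi
        rw [hk0, Finset.card_eq_zero] at h1
        have : j ∈ Finset.univ.filter fun j => i ∉ S j := by simp [hij]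
        rw [h1] at this
        exact absurd this (Finset.notMem_empty j)
      rw [hk0, pow_zero, Finset.univ_eq_empty, Finset.prod_empty]
    · have hne1 : Nonempty {i // i ∈ σ} := hσ.to_subtype
      have hne2 : Nonempty {j // S j ≠ σ} := by
        obtain ⟨i, hi⟩ := hσ
        have h1 := hnot i hi
        have h2 : 0 < (Finset.univ.filter fun j => i ∉ S j).card := by rw [h1]; exact hk0
        obtain ⟨j, hj⟩ := Finset.card_pos.1 h2
        refine ⟨⟨j, fun h => ?_⟩⟩
        rw [Finset.mem_filter, h] at hj
        exact hj.2 hi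
      set T : {j // S j ≠ σ} → {i // i ∈ σ} → Prop := fun j i => (i : Fin n) ∉ S j with hT
      set g : ({i // i ∈ σ} → ℝ) → ℝ≥0∞ := fun x => sec K σ x * M⁻¹ with hg
      have hdm : ∀ j, dm (T j) = σ.card - (S j).card := by
        intro j
        unfold dm
        rw [← Finset.card_sdiff_of_subset (hS j), ← Finset.card_map (Function.Embedding.subtype _)]
        congr 1
        ext i
        simp only [Finset.mem_map, Finset.mem_filter, Finset.mem_univ, true_and,
          Function.Embedding.coe_subtype, Finset.mem_sdiff, hT]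
        constructor
        · rintro ⟨i', h1, rfl⟩
          exact ⟨i'.2, h1⟩
        · rintro ⟨h1, h2⟩
          exact ⟨⟨i, h1⟩, h2, rfl⟩
      have hfac : ∀ j : {j // S j ≠ σ}, F j * M⁻¹ =
          ((dm (T j)).factorial : ℝ≥0∞) * ∫⁻ x, g x ∂(mu (T j)) := by
        intro j
        rw [hdm, hg, lintegral_mul_const _ hGm, ← mu_glue hKm σ (fun i => i ∉ S j)
          (fun i hi h => hi (hS j h)), ← sec_zero hKm, ← mul_assoc]
      have hBT := dual_BT k hk0 T (by
          intro i
          rw [← hnot i i.2, ← Finset.card_map (Function.Embedding.subtype _)]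
          congr 1
          ext j
          simp only [Finset.mem_map, Finset.mem_filter, Finset.mem_univ, true_and,
            Function.Embedding.coe_subtype, hT]
          constructor
          · rintro ⟨j', h1, rfl⟩
            exact h1
          · intro h1
            exact ⟨⟨j, fun h => h1 (h ▸ i.2)⟩, h1, rfl⟩)
        (by
          intro j
          rw [hdm]
          have := Finset.card_lt_card (Finset.ssubset_iff_subset_ne.2 ⟨hS j, j.2⟩)
          omega)
        (g := g) (hGm.mul_const _)
        (by
          intro x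
          rw [← hMM]
          exact mul_le_mul_left (hle x) _)
        (R := R)
        (by
          intro x hx i
          exact sec_supp hR σ x (fun h => hx (by rw [hg]; simp only; rw [h, zero_mul])) i)
        (by
          intro x y a b ha hb hab
          have h1 := sec_LC hK hKc σ x y a b ha hb hab
          have hMi0 : M⁻¹ ≠ 0 := ENNReal.inv_ne_zero.2 hMT
          have hMiT : M⁻¹ ≠ ⊤ := ENNReal.inv_ne_top.2 hM0
          have h2 : (M⁻¹) ^ a * (M⁻¹) ^ b = M⁻¹ := by
            rw [← ENNReal.rpow_add _ _ hMi0 hMiT, hab, ENNReal.rpow_one]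
          rw [hg]
          simp only
          rw [ENNReal.mul_rpow_of_nonneg _ _ ha.le, ENNReal.mul_rpow_of_nonneg _ _ hb.le]
          calc sec K σ x ^ a * M⁻¹ ^ a * (sec K σ y ^ b * M⁻¹ ^ b)
              = (sec K σ x ^ a * sec K σ y ^ b) * (M⁻¹ ^ a * M⁻¹ ^ b) := by ring
            _ ≤ sec K σ (a • x + b • y) * M⁻¹ := by
                rw [h2]
                exact mul_le_mul_left h1 _)
      simp_rw [hfac]
      refine hBT.trans (le_of_eq ?_)
      rw [Fintype.card_coe, hg, lintegral_mul_const _ hGm, hvol]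
  calc ∏ j, F j = (∏ j, (F j * M⁻¹)) * M ^ m := by
        have h1 : M ^ m = ∏ _j : Fin m, M := by simp
        rw [h1, ← Finset.prod_mul_distrib]
        apply Finset.prod_congr rfl
        intro j _
        rw [mul_assoc, mul_comm M⁻¹, hMM, mul_one]
    _ ≤ ((σ.card.factorial : ℝ≥0∞) * (volume K * M⁻¹)) ^ k * M ^ m := mul_le_mul_left key _
    _ = ((σ.card.factorial : ℝ≥0∞) * volume K) ^ k * M ^ s := by
        have h1 : M ^ m = M ^ k * M ^ s := by rw [← pow_add]; congr 1; omega
        rw [h1, ← mul_assoc, ← mul_pow]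
        congr 2
        calc (σ.card.factorial : ℝ≥0∞) * (volume K * M⁻¹) * M
            = (σ.card.factorial : ℝ≥0∞) * volume K * (M * M⁻¹) := by ring
          _ = _ := by rw [hMM, mul_one]

end Pool.Agent.Q156.SX
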